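import Pool.Agent.helper74.AG.XA0

set_option autoImplicit false

open scoped Topology
open Pool.Agent.helper73.AD

namespace AdSBend

noncomputable section

variable {J : Type} [Fintype J] [DecidableEq J]

theorem XA1_anti (l k : PS J →L[ℝ] ℝ) : l (sg k) = -(k (sg l)) := by
  rw [← om_sg l, ← om_sg k, om_anti]

/-- the discrete primitive -/
def XA1_u {m : ℕ} (ξ : Fin m → (PS J →L[ℝ] ℝ)) (i : Fin m) : PS J :=
  (1 / (m : ℝ)) • sg (∑ l ∈ Finset.univ.filter (fun l => l < i), ξ l + (1 / 2 : ℝ) • ξ i)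

/-- the bilinear form -/
def XA1_B {m : ℕ} (ξ η : Fin m → (PS J →L[ℝ] ℝ)) : ℝ := ∑ i, η i (XA1_u ξ i)

theorem XA1_u_add {m : ℕ} (ξ η : Fin m → (PS J →L[ℝ] ℝ)) (i : Fin m) :
    XA1_u (ξ + η) i = XA1_u ξ i + XA1_u η i := by
  unfold XA1_u
  rw [← smul_add, ← sg_add]
  congr 2
  simp only [Pi.add_apply, Finset.sum_add_distrib, smul_add]
  abel

theorem XA1_u_smul {m : ℕ} (c : ℝ) (ξ : Fin m → (PS J →L[ℝ] ℝ)) (i : Fin m) :
    XA1_u (c • ξ) i = c • XA1_u ξ i := by
  unfold XA1_u
  have h1 : ∑ l ∈ Finset.univ.filter (fun l => l < i), (c • ξ) l + (1 / 2 : ℝ) • (c • ξ) i =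
      c • (∑ l ∈ Finset.univ.filter (fun l => l < i), ξ l + (1 / 2 : ℝ) • ξ i) := by
    rw [smul_add, Finset.smul_sum, smul_comm c (1 / 2 : ℝ)]
    rfl
  rw [h1, sg_smul, smul_comm]

theorem XA1_B_symm {m : ℕ} (ξ η : Fin m → (PS J →L[ℝ] ℝ)) (hξ : ∑ i, ξ i = 0) :
    XA1_B ξ η = XA1_B η ξ := by
  have e1 : ∀ ξ η : Fin m → (PS J →L[ℝ] ℝ), XA1_B ξ η =
      (1 / (m : ℝ)) * ∑ i, ∑ l, (if l < i then 1 else if l = i then 1 / 2 else 0) *
        (η i) (sg (ξ l)) := by
    intro ξ η
    unfold XA1_B XA1_u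
    rw [Finset.mul_sum]
    apply Finset.sum_congr rfl
    intro i _
    rw [map_smul, smul_eq_mul]
    congr 1
    have h1 : sg (∑ l ∈ Finset.univ.filter (fun l => l < i), ξ l + (1 / 2 : ℝ) • ξ i) =
        ∑ l, (if l < i then (1 : ℝ) else if l = i then 1 / 2 else 0) • sg (ξ l) := by
      rw [← sgL_apply, map_add, map_sum, map_smul]
      simp only [sgL_apply]
      have : ∀ l : Fin m, (if l < i then (1 : ℝ) else if l = i then 1 / 2 else 0) • sg (ξ l) =
          (if l < i then sg (ξ l) else 0) + (if l = i then (1 / 2 : ℝ) • sg (ξ l) else 0) := by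
        intro l
        split_ifs with h h' h'
        · exact absurd h (h' ▸ lt_irrefl _)
        · rw [one_smul, add_zero]
        · rw [zero_add]
        · rw [zero_smul, add_zero]
      simp only [this]
      rw [Finset.sum_add_distrib, Finset.sum_filter, Finset.sum_ite_eq' Finset.univ i]
      simp
    rw [h1, map_sum]
    apply Finset.sum_congr rfl
    intro l _
    rw [map_smul, smul_eq_mul]
  have e2 : XA1_B ξ η - XA1_B η ξ = (1 / (m : ℝ)) * ∑ i, (η i) (sg (∑ l, ξ l)) := by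
    rw [e1 ξ η, e1 η ξ, ← mul_sub]
    congr 1
    rw [Finset.sum_comm (f := fun i l => (if l < i then (1 : ℝ) else if l = i then 1 / 2 else 0) *
        (ξ i) (sg (η l))), ← Finset.sum_sub_distrib]
    apply Finset.sum_congr rfl
    intro i _
    rw [← sgL_apply (∑ l, ξ l), map_sum, map_sum, ← Finset.sum_sub_distrib]
    apply Finset.sum_congr rfl
    intro l _
    rw [XA1_anti (ξ l) (η i), sgL_apply]
    rcases lt_trichotomy l i with h | h | h
    · rw [if_pos h, if_neg (not_lt.2 h.le), if_neg h.ne']; ring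
    · subst h; simp; ring
    · rw [if_neg (not_lt.2 h.le), if_neg h.ne', if_pos h]; ring
  rw [hξ] at e2
  have e3 : sg (0 : PS J →L[ℝ] ℝ) = 0 := by rw [← sgL_apply, map_zero]
  rw [e3] at e2
  simp at e2
  linarith

theorem XA1_B_add_left {m : ℕ} (ξ ξ' η : Fin m → (PS J →L[ℝ] ℝ)) :
    XA1_B (ξ + ξ') η = XA1_B ξ η + XA1_B ξ' η := by
  unfold XA1_B
  rw [← Finset.sum_add_distrib]
  exact Finset.sum_congr rfl fun i _ => by rw [XA1_u_add, map_add]

theorem XA1_B_smul_left {m : ℕ} (c : ℝ) (ξ η : Fin m → (PS J →L[ℝ] ℝ)) :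
    XA1_B (c • ξ) η = c * XA1_B ξ η := by
  unfold XA1_B
  rw [Finset.mul_sum]
  exact Finset.sum_congr rfl fun i _ => by rw [XA1_u_smul, map_smul, smul_eq_mul]

theorem XA1_B_add_right {m : ℕ} (ξ η η' : Fin m → (PS J →L[ℝ] ℝ)) :
    XA1_B ξ (η + η') = XA1_B ξ η + XA1_B ξ η' := by
  unfold XA1_B
  rw [← Finset.sum_add_distrib]
  exact Finset.sum_congr rfl fun i _ => by rw [Pi.add_apply]; rfl

theorem XA1_B_smul_right {m : ℕ} (c : ℝ) (ξ η : Fin m → (PS J →L[ℝ] ℝ)) :
    XA1_B ξ (c • η) = c * XA1_B ξ η := by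
  unfold XA1_B
  rw [Finset.mul_sum]
  exact Finset.sum_congr rfl fun i _ => by rw [Pi.smul_apply]; rfl

theorem XA1_B_cont {m : ℕ} :
    Continuous (fun ξ : Fin m → (PS J →L[ℝ] ℝ) => XA1_B ξ ξ) := by
  unfold XA1_B
  apply continuous_finset_sum
  intro i _
  apply Continuous.clm_apply (continuous_apply i)
  unfold XA1_u
  have : Continuous (fun ξ : Fin m → (PS J →L[ℝ] ℝ) =>
      sgL (∑ l ∈ Finset.univ.filter (fun l => l < i), ξ l + (1 / 2 : ℝ) • ξ i)) := by
    apply sgL.continuous.comp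
    apply Continuous.add
    · exact continuous_finset_sum _ fun l _ => continuous_apply l
    · exact Continuous.fun_const_smul (continuous_apply i) _
  exact Continuous.fun_const_smul this _

/-- the shifted Hamiltonians -/
def XA1_K (H : PS J → ℝ) (a : J → ℝ) (m : ℕ) (i : Fin m) (w : PS J) : ℝ :=
  XA_G H a (w - ((i.val : ℝ) / m) • ((0 : J → ℝ), a))

def XA1_dK (H : PS J → ℝ) (a : J → ℝ) (m : ℕ) (i : Fin m) (w : PS J) : PS J →L[ℝ] ℝ :=
  XA_D H a (w - ((i.val : ℝ) / m) • ((0 : J → ℝ), a))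

omit [Fintype J] [DecidableEq J] in
theorem XA1_mem (a : J → ℝ) (c : ℝ) (w : PS J) :
    w - c • ((0 : J → ℝ), a) ∈ Cone J ↔ w ∈ Cone J := by
  unfold Cone
  simp

theorem XA1_tangent {H : PS J → ℝ} {a : J → ℝ} (h : CHam H a) {m : ℕ} (i : Fin m) {z w : PS J}
    (hz : z ∈ Cone J) (hw : w ∈ Cone J) :
    XA1_K H a m i z + XA1_dK H a m i z (w - z) ≤ XA1_K H a m i w := by
  have := XA_tangent h ((XA1_mem a ((i.val : ℝ) / m) z).2 hz)
    ((XA1_mem a ((i.val : ℝ) / m) w).2 hw)
  rw [sub_sub_sub_cancel_right] at this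
  exact this

theorem XA1_hasD {H : PS J → ℝ} {a : J → ℝ} (h : CHam H a) {m : ℕ} (i : Fin m) {z : PS J}
    (hz : z ∈ Cone J) : HasFDerivAt (XA1_K H a m i) (XA1_dK H a m i z) z := by
  have h1 := XA_hasD h ((XA1_mem a ((i.val : ℝ) / m) z).2 hz)
  have h2 : HasFDerivAt (fun w : PS J => w - ((i.val : ℝ) / m) • ((0 : J → ℝ), a))
      (ContinuousLinearMap.id ℝ (PS J)) z := (hasFDerivAt_id z).sub_const _
  exact h1.comp z h2

/-- the dual domain -/
def XA1_Dom (H : PS J → ℝ) (a : J → ℝ) (m : ℕ) :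
    Set ((Fin m → (PS J →L[ℝ] ℝ)) × (Fin m → ℝ)) :=
  {x | ∑ i, x.1 i = 0 ∧ ∀ i, ∀ w ∈ Cone J, x.1 i w - XA1_K H a m i w ≤ x.2 i}

theorem XA1_Dom_closed (H : PS J → ℝ) (a : J → ℝ) (m : ℕ) : IsClosed (XA1_Dom H a m) := by
  have : XA1_Dom H a m = {x | ∑ i, x.1 i = 0} ∩
      ⋂ i, ⋂ w ∈ Cone J, {x | x.1 i w - XA1_K H a m i w ≤ x.2 i} := by
    ext x; simp [XA1_Dom]
  rw [this]
  apply IsClosed.inter
  · apply isClosed_eq _ continuous_const
    exact continuous_finset_sum _ fun i _ => (continuous_apply i).comp continuous_fst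
  · apply isClosed_iInter; intro i
    apply isClosed_iInter; intro w
    apply isClosed_iInter; intro _
    apply isClosed_le
    · apply Continuous.sub _ continuous_const
      exact (((continuous_apply i).comp continuous_fst)).clm_apply continuous_const
    · exact (continuous_apply i).comp continuous_snd

/-- slope bounds on the dual domain -/
theorem XA1_dir {H : PS J → ℝ} {a : J → ℝ} (h : CHam H a) {m : ℕ} (i : Fin m) (C : ℝ)
    (v : PS J) (hv : ∀ w ∈ Cone J, ∀ t : ℝ, 0 ≤ t → w + t • v ∈ Cone J)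
    (hC : ∀ z ∈ Cone J, XA_D H a z v ≤ C) (l : PS J →L[ℝ] ℝ) (s : ℝ)
    (hl : ∀ w ∈ Cone J, l w - XA1_K H a m i w ≤ s) : l v ≤ C := by
  by_contra hcon
  push Not at hcon
  set w0 : PS J := (fun _ => 1, 0) with hw0
  have hw0C : w0 ∈ Cone J := fun j => by simp [hw0]
  have h1 : ∀ t : ℝ, 0 ≤ t → t * (l v - C) ≤ s - l w0 + XA1_K H a m i w0 := by
    intro t ht
    have h2 := hl _ (hv w0 hw0C t ht)
    have h3 := XA1_tangent h i (hv w0 hw0C t ht) hw0C
    rw [sub_add_cancel_left, map_neg, map_smul, smul_eq_mul] at h3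
    have h4 : XA1_dK H a m i (w0 + t • v) v ≤ C :=
      hC _ ((XA1_mem a ((i.val : ℝ) / m) _).2 (hv w0 hw0C t ht))
    have h5 := mul_le_mul_of_nonneg_left h4 ht
    rw [map_add, map_smul, smul_eq_mul] at h2
    linarith
  have h2 : 0 < l v - C := by linarith
  have h3 := h1 ((|s - l w0 + XA1_K H a m i w0| + 1) / (l v - C)) (by positivity)
  rw [div_mul_cancel₀ _ h2.ne'] at h3
  linarith [le_abs_self (s - l w0 + XA1_K H a m i w0)]


/-- the dual functional has a minimiser -/
theorem XA1_dual {H : PS J → ℝ} {a : J → ℝ} (h : CHam H a) {m : ℕ} (hm : 0 < m) :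
    ∃ x ∈ XA1_Dom H a m, ∀ y ∈ XA1_Dom H a m,
      ∑ i, x.2 i - 1 / 2 * XA1_B x.1 x.1 ≤ ∑ i, y.2 i - 1 / 2 * XA1_B y.1 y.1 := by
  classical
  obtain ⟨C, hC0, hC⟩ := XA_slope h
  obtain ⟨κ, hκ0, hκ⟩ := XA_lower h
  set w0 : PS J := (fun _ => 1, 0) with hw0
  have hw0C : w0 ∈ Cone J := fun j => by simp [hw0]
  -- the starting point
  set x0 : (Fin m → (PS J →L[ℝ] ℝ)) × (Fin m → ℝ) := (0, fun _ => -κ) with hx0
  have hx0D : x0 ∈ XA1_Dom H a m := by
    refine ⟨by simp [hx0], fun i w hw => ?_⟩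
    have := hκ _ ((XA1_mem a ((i.val : ℝ) / m) w).2 hw)
    simp only [hx0, Pi.zero_apply]
    unfold XA1_K
    have e : (0 : PS J →L[ℝ] ℝ) w = 0 := rfl
    rw [e]
    linarith
  have hmR : (0 : ℝ) < m := by exact_mod_cast hm
  have hm1 : (1 : ℝ) ≤ m := by exact_mod_cast hm
  -- bound of the covectors
  have hb1 : ∀ x ∈ XA1_Dom H a m, ∀ i, ‖x.1 i‖ ≤ 2 * Fintype.card J * (m * C) := by
    intro x hx i
    have hfst : ∀ i j, x.1 i (Pi.single j 1, 0) ≤ C := by
      intro i j
      refine XA1_dir h i C _ ?_ (fun z hz => (hC z hz j).2) (x.1 i) (x.2 i) (hx.2 i)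
      intro w hw t ht j'
      have := hw j'
      simp only [Prod.fst_add, Prod.smul_fst, Pi.add_apply, Pi.smul_apply, smul_eq_mul]
      have h1 : 0 ≤ (Pi.single j (1 : ℝ) : J → ℝ) j' := by
        by_cases h : j' = j
        · subst h; simp
        · simp [Pi.single_apply, h]
      have := mul_nonneg ht h1
      linarith
    have hsnd : ∀ i j, x.1 i (0, Pi.single j 1) ≤ C := by
      intro i j
      refine XA1_dir h i C _ ?_ (fun z hz => (le_abs_self _).trans (hC z hz j).1) (x.1 i) (x.2 i)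
        (hx.2 i)
      intro w hw t ht j'
      have := hw j'
      simpa using this
    have hsnd' : ∀ i j, -(x.1 i (0, Pi.single j 1)) ≤ C := by
      intro i j
      have := XA1_dir h i C (-((0, Pi.single j 1) : PS J)) ?_ (fun z hz => ?_) (x.1 i) (x.2 i)
        (hx.2 i)
      · rwa [map_neg] at this
      · intro w hw t ht j'
        have := hw j'
        simpa using this
      · rw [map_neg]
        exact (neg_le_abs _).trans (hC z hz j).1
    have hfst' : ∀ i j, -(m * C) ≤ x.1 i (Pi.single j 1, 0) := by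
      intro i j
      have h1 : ∑ l, x.1 l ((Pi.single j 1, 0) : PS J) = 0 := by
        have h2 := congrArg (fun l : PS J →L[ℝ] ℝ => l (Pi.single j 1, 0)) hx.1
        simpa using h2
      rw [← Finset.add_sum_erase _ _ (Finset.mem_univ i)] at h1
      have h2 : ∑ l ∈ Finset.univ.erase i, x.1 l ((Pi.single j 1, 0) : PS J) ≤
          ∑ l ∈ Finset.univ.erase i, C := Finset.sum_le_sum fun l _ => hfst l j
      rw [Finset.sum_const, nsmul_eq_mul] at h2
      have h3 : ((Finset.univ.erase i).card : ℝ) ≤ m := by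
        have : (Finset.univ.erase i).card ≤ m := by
          refine (Finset.card_erase_le).trans ?_
          simp
        exact_mod_cast this
      have h4 := mul_le_mul_of_nonneg_right h3 hC0
      linarith
    apply XA_norm_le _ _ (by positivity)
    intro j
    have h5 : C ≤ m * C := by nlinarith
    constructor
    · rw [abs_le]; exact ⟨hfst' i j, (hfst i j).trans h5⟩
    · rw [abs_le]; exact ⟨by linarith [hsnd' i j], (hsnd i j).trans h5⟩
  set C3 : ℝ := 2 * Fintype.card J * (m * C) with hC3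
  have hC30 : 0 ≤ C3 := by positivity
  have : ProperSpace ((Fin m → (PS J →L[ℝ] ℝ)) × (Fin m → ℝ)) := FiniteDimensional.proper ℝ _
  have : ProperSpace (Fin m → (PS J →L[ℝ] ℝ)) := FiniteDimensional.proper ℝ _
  -- the quadratic form is bounded
  obtain ⟨C4, hC4⟩ := (isCompact_closedBall (0 : Fin m → (PS J →L[ℝ] ℝ)) C3).bddAbove_image
    (XA1_B_cont (J := J) (m := m)).continuousOn
  have hB : ∀ x ∈ XA1_Dom H a m, XA1_B x.1 x.1 ≤ C4 := by
    intro x hx
    apply hC4
    refine ⟨x.1, ?_, rfl⟩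
    rw [mem_closedBall_zero_iff, pi_norm_le_iff_of_nonneg hC30]
    exact hb1 x hx
  set F : ((Fin m → (PS J →L[ℝ] ℝ)) × (Fin m → ℝ)) → ℝ :=
    fun x => ∑ i, x.2 i - 1 / 2 * XA1_B x.1 x.1 with hF
  have hFc : Continuous F := by
    apply Continuous.sub
    · exact continuous_finset_sum _ fun i _ => (continuous_apply i).comp continuous_snd
    · exact continuous_const.mul (XA1_B_cont.comp continuous_fst)
  set C5 : ℝ := C3 * ‖w0‖ + ∑ i, |XA1_K H a m i w0| with hC5
  have hC50 : 0 ≤ C5 := add_nonneg (mul_nonneg hC30 (norm_nonneg _))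
    (Finset.sum_nonneg fun _ _ => abs_nonneg _)
  have hlow : ∀ x ∈ XA1_Dom H a m, ∀ i, -C5 ≤ x.2 i := by
    intro x hx i
    have h1 := hx.2 i w0 hw0C
    have h2 : |x.1 i w0| ≤ C3 * ‖w0‖ := ((x.1 i).le_opNorm w0).trans
      (mul_le_mul_of_nonneg_right (hb1 x hx i) (norm_nonneg _))
    have h3 : |XA1_K H a m i w0| ≤ ∑ i, |XA1_K H a m i w0| :=
      Finset.single_le_sum (f := fun i => |XA1_K H a m i w0|) (fun _ _ => abs_nonneg _)
        (Finset.mem_univ i)
    have h4 := (abs_le.1 h2).1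
    have h5 := le_abs_self (XA1_K H a m i w0)
    linarith
  set S : Set ((Fin m → (PS J →L[ℝ] ℝ)) × (Fin m → ℝ)) := XA1_Dom H a m ∩ {x | F x ≤ F x0} with hS
  have hSc : IsCompact S := by
    apply Metric.isCompact_of_isClosed_isBounded
    · exact (XA1_Dom_closed H a m).inter (isClosed_le hFc continuous_const)
    · set C6 : ℝ := |F x0| + |C4| + m * C5 with hC6
      have hC60 : 0 ≤ C6 := by positivity
      apply Bornology.IsBounded.subset (Metric.isBounded_closedBall (x := 0) (r := max C3 C6))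
      intro x hx
      rw [mem_closedBall_zero_iff, Prod.norm_def]
      apply max_le_max
      · rw [pi_norm_le_iff_of_nonneg hC30]
        exact hb1 x hx.1
      · rw [pi_norm_le_iff_of_nonneg hC60]
        intro i
        rw [Real.norm_eq_abs, abs_le]
        have h1 := hlow x hx.1 i
        have h2 : F x ≤ F x0 := hx.2
        have h3 := hB x hx.1
        have h4 : ∑ l ∈ Finset.univ.erase i, (-C5) ≤ ∑ l ∈ Finset.univ.erase i, x.2 l :=
          Finset.sum_le_sum fun l _ => hlow x hx.1 l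
        have h5 := Finset.add_sum_erase Finset.univ x.2 (Finset.mem_univ i)
        rw [Finset.sum_const, nsmul_eq_mul] at h4
        have h6 : ((Finset.univ.erase i).card : ℝ) ≤ m := by
          have : (Finset.univ.erase i).card ≤ m := by
            refine (Finset.card_erase_le).trans ?_
            simp
          exact_mod_cast this
        have h7 := mul_le_mul_of_nonneg_right h6 hC50
        have h8 := le_abs_self (F x0)
        have h9 := le_abs_self C4
        have h10 := abs_nonneg (F x0)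
        have h11 := abs_nonneg C4
        have h12 : C5 ≤ m * C5 := by nlinarith
        simp only [hF] at h2 h8 h10 ⊢
        constructor
        · linarith
        · linarith
  obtain ⟨x, hxS, hx⟩ := hSc.exists_isMinOn ⟨x0, hx0D, le_refl (F x0)⟩ hFc.continuousOn
  refine ⟨x, hxS.1, fun y hy => ?_⟩
  by_cases hy2 : F y ≤ F x0
  · exact hx ⟨hy, hy2⟩
  · exact (hxS.2 : F x ≤ F x0).trans (not_le.1 hy2).le

/-- the primal minimiser over the constants -/
theorem XA1_primal {H : PS J → ℝ} {a : J → ℝ} (h : CHam H a) {m : ℕ} (hm : 0 < m)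
    (U : Fin m → PS J) : ∃ c : PS J, (∀ i, U i + c ∈ Cone J) ∧
      ∑ i, XA1_dK H a m i (U i + c) = 0 := by
  classical
  obtain ⟨κ, hκ0, hκ⟩ := XA_lower h
  set Ω : Set (PS J) := {c | ∀ i, U i + c ∈ Cone J} with hΩ
  set g : PS J → ℝ := fun c => ∑ i, XA1_K H a m i (U i + c) with hg
  set c1 : PS J := (fun _ => ∑ i, ‖U i‖ + 1, 0) with hc1
  have hc1Ω : c1 ∈ Ω := by
    intro i j
    have h1 := abs_fst_le (U i) j
    have h2 : ‖U i‖ ≤ ∑ i, ‖U i‖ := Finset.single_le_sum (f := fun i => ‖U i‖)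
      (fun _ _ => norm_nonneg _) (Finset.mem_univ i)
    have h3 := (abs_le.1 h1).1
    simp only [Prod.fst_add, Pi.add_apply, hc1]
    linarith
  obtain ⟨δ, B, hδ, hbox⟩ := XA_proper h (g c1 - m * κ)
  set Kc : Set (PS J) := {c | ∀ i : Fin m, U i + c - ((i.val : ℝ) / m) • ((0 : J → ℝ), a) ∈
    XA_box J δ B} with hKc
  have hKcΩ : Kc ⊆ Ω := fun c hc i =>
    (XA1_mem a ((i.val : ℝ) / m) _).1 (XA_box_sub hδ (hc i))
  have hsub : ∀ c ∈ Ω, g c ≤ g c1 → c ∈ Kc := by
    intro c hc hgc i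
    apply hbox _ ((XA1_mem a ((i.val : ℝ) / m) _).2 (hc i))
    have h5 := Finset.add_sum_erase Finset.univ (fun i => XA1_K H a m i (U i + c))
      (Finset.mem_univ i)
    have h4 : ∑ l ∈ Finset.univ.erase i, κ ≤
        ∑ l ∈ Finset.univ.erase i, XA1_K H a m l (U l + c) :=
      Finset.sum_le_sum fun l _ => hκ _ ((XA1_mem a ((l.val : ℝ) / m) _).2 (hc l))
    rw [Finset.sum_const, nsmul_eq_mul] at h4
    have h6 : ((Finset.univ.erase i).card : ℝ) ≤ m := by
      have : (Finset.univ.erase i).card ≤ m := by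
        refine (Finset.card_erase_le).trans ?_
        simp
      exact_mod_cast this
    have h7 := mul_le_mul_of_nonpos_right h6 hκ0
    simp only [hg] at hgc
    have e : XA_G H a (U i + c - ((i.val : ℝ) / m) • ((0 : J → ℝ), a)) =
        XA1_K H a m i (U i + c) := rfl
    rw [e]
    simp only [hg]
    linarith
  have hKcc : IsCompact Kc := by
    have e : Kc = ⋂ i : Fin m, (fun c => c + (U i - ((i.val : ℝ) / m) • ((0 : J → ℝ), a))) ⁻¹'
        XA_box J δ B := by
      ext c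
      simp only [hKc, Set.mem_setOf_eq, Set.mem_iInter, Set.mem_preimage]
      apply forall_congr'
      intro i
      rw [show c + (U i - ((i.val : ℝ) / m) • ((0 : J → ℝ), a)) =
        U i + c - ((i.val : ℝ) / m) • ((0 : J → ℝ), a) by abel]
    have hcomp : ∀ i : Fin m, IsCompact
        ((fun c => c + (U i - ((i.val : ℝ) / m) • ((0 : J → ℝ), a))) ⁻¹' XA_box J δ B) := by
      intro i
      have := (Homeomorph.addRight (U i - ((i.val : ℝ) / m) • ((0 : J → ℝ), a))).isCompact_preimage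
        (s := XA_box J δ B)
      exact this.2 (XA_box_compact δ B)
    rw [e]
    exact (hcomp ⟨0, hm⟩).of_isClosed_subset (isClosed_iInter fun i => (hcomp i).isClosed)
      (Set.iInter_subset _ _)
  have hgd : ∀ c ∈ Ω, HasFDerivAt g (∑ i, XA1_dK H a m i (U i + c)) c := by
    intro c hc
    simp only [hg]
    apply HasFDerivAt.fun_sum
    intro i _
    have h2 : HasFDerivAt (fun c : PS J => U i + c) (ContinuousLinearMap.id ℝ (PS J)) c :=
      (hasFDerivAt_id c).const_add _
    exact (XA1_hasD h i (hc i)).comp c h2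
  have hgc : ContinuousOn g Kc := fun c hc =>
    (hgd c (hKcΩ hc)).continuousAt.continuousWithinAt
  obtain ⟨c0, hc0, hmin⟩ := hKcc.exists_isMinOn ⟨c1, hsub c1 hc1Ω le_rfl⟩ hgc
  have hmin' : ∀ c ∈ Ω, g c0 ≤ g c := by
    intro c hc
    by_cases h1 : g c ≤ g c1
    · exact hmin (hsub c hc h1)
    · exact (hmin (hsub c1 hc1Ω le_rfl) : g c0 ≤ g c1).trans (not_le.1 h1).le
  have hΩo : IsOpen Ω := by
    have : Ω = ⋂ i, (fun c => U i + c) ⁻¹' Cone J := by ext c; simp [hΩ]
    rw [this]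
    exact isOpen_iInter_of_finite fun i => isOpen_Cone.preimage (continuous_const.add continuous_id)
  have hc0Ω : c0 ∈ Ω := hKcΩ hc0
  have hloc : IsLocalMin g c0 := by
    filter_upwards [hΩo.mem_nhds hc0Ω] with c hc
    exact hmin' c hc
  exact ⟨c0, hc0Ω, hloc.hasFDerivAt_eq_zero (hgd c0 hc0Ω)⟩

theorem XA1 : XA1_stmt := by
  intro J _ _ H a h m hm
  obtain ⟨x, hxD, hxmin⟩ := XA1_dual h hm
  obtain ⟨c, hcΩ, hc⟩ := XA1_primal h hm (XA1_u x.1)
  set w : Fin m → PS J := fun i => XA1_u x.1 i + c with hw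
  set η : Fin m → (PS J →L[ℝ] ℝ) := fun i => XA1_dK H a m i (w i) with hη
  set σ : Fin m → ℝ := fun i => η i (w i) - XA1_K H a m i (w i) with hσ
  have hηD : (η, σ) ∈ XA1_Dom H a m := by
    refine ⟨hc, fun i v hv => ?_⟩
    have := XA1_tangent h i (hcΩ i) hv
    rw [map_sub] at this
    simp only [hσ, hη, hw]
    linarith
  set ζ : Fin m → (PS J →L[ℝ] ℝ) := η - x.1 with hζ
  have hζ0 : ∑ i, ζ i = 0 := by
    simp only [hζ, Pi.sub_apply, Finset.sum_sub_distrib]
    rw [hxD.1, sub_zero]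
    exact hc
  -- the segment
  have hseg : ∀ t : ℝ, 0 < t → t ≤ 1 →
      0 ≤ t * (∑ i, (σ i - x.2 i) - XA1_B x.1 ζ) - 1 / 2 * (t ^ 2 * XA1_B ζ ζ) := by
    intro t ht ht1
    set y : (Fin m → (PS J →L[ℝ] ℝ)) × (Fin m → ℝ) := (x.1 + t • ζ, x.2 + t • (σ - x.2)) with hy
    have hyD : y ∈ XA1_Dom H a m := by
      constructor
      · simp only [hy, Pi.add_apply, Pi.smul_apply, Finset.sum_add_distrib, ← Finset.smul_sum]
        rw [hζ0, hxD.1]; simp
      · intro i v hv
        have h1 := hxD.2 i v hv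
        have h2 := hηD.2 i v hv
        have h3 := mul_le_mul_of_nonneg_left h1 (sub_nonneg.2 ht1)
        have h4 := mul_le_mul_of_nonneg_left h2 ht.le
        have e1 : (y.1 i) v = (1 - t) * x.1 i v + t * η i v := by
          simp only [hy, hζ, Pi.add_apply, Pi.smul_apply, Pi.sub_apply]
          change x.1 i v + t * (η i v - x.1 i v) = _
          ring
        have e2 : y.2 i = (1 - t) * x.2 i + t * σ i := by
          simp only [hy, Pi.add_apply, Pi.smul_apply, Pi.sub_apply, smul_eq_mul]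
          ring
        rw [e1, e2]
        simp only at h4
        linarith
    have h1 := hxmin y hyD
    have e1 : ∑ i, y.2 i = ∑ i, x.2 i + t * ∑ i, (σ i - x.2 i) := by
      rw [Finset.mul_sum, ← Finset.sum_add_distrib]
      exact Finset.sum_congr rfl fun i _ => by
        simp only [hy, Pi.add_apply, Pi.smul_apply, Pi.sub_apply, smul_eq_mul]
    have e2 : XA1_B y.1 y.1 = XA1_B x.1 x.1 + 2 * t * XA1_B x.1 ζ + t ^ 2 * XA1_B ζ ζ := by
      simp only [hy]
      rw [XA1_B_add_left, XA1_B_add_right, XA1_B_add_right, XA1_B_smul_left, XA1_B_smul_left,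
        XA1_B_smul_right, XA1_B_smul_right, XA1_B_symm ζ x.1 hζ0]
      ring
    rw [e1, e2] at h1
    linarith
  have hkey : 0 ≤ ∑ i, (σ i - x.2 i) - XA1_B x.1 ζ := by
    by_contra hcon
    push Not at hcon
    set A : ℝ := ∑ i, (σ i - x.2 i) - XA1_B x.1 ζ with hA
    set Q : ℝ := XA1_B ζ ζ with hQ
    have h1 : ∀ t : ℝ, 0 < t → t ≤ 1 → 0 ≤ A + t * |Q| := by
      intro t ht ht1
      have h2 := hseg t ht ht1
      have h3 : 0 ≤ t * (A + t * |Q|) := by
        have h4 := neg_abs_le Q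
        have h5 : 0 ≤ t ^ 2 * |Q| := by positivity
        nlinarith [mul_le_mul_of_nonneg_left h4 (sq_nonneg t)]
      by_contra h6
      push Not at h6
      have := mul_neg_of_pos_of_neg ht h6
      linarith
    have h2 := h1 (min 1 (-A / (2 * (|Q| + 1)))) (lt_min one_pos (by
      apply div_pos (by linarith) (by positivity))) (min_le_left _ _)
    have h3 : min 1 (-A / (2 * (|Q| + 1))) * |Q| ≤ -A / (2 * (|Q| + 1)) * |Q| :=
      mul_le_mul_of_nonneg_right (min_le_right _ _) (abs_nonneg _)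
    have h4 : -A / (2 * (|Q| + 1)) * |Q| ≤ -A / 2 := by
      rw [div_mul_eq_mul_div, div_le_div_iff₀ (by positivity) two_pos]
      nlinarith [abs_nonneg Q]
    linarith
  -- evaluation at the points `w i`
  have hBw : XA1_B x.1 ζ = ∑ i, ζ i (w i) := by
    have h1 : ∑ i, ζ i (w i) = XA1_B x.1 ζ + ∑ i, ζ i c := by
      unfold XA1_B
      rw [← Finset.sum_add_distrib]
      exact Finset.sum_congr rfl fun i _ => by simp only [hw]; rw [map_add]
    have h2 : ∑ i, ζ i c = 0 := by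
      have := congrArg (fun l : PS J →L[ℝ] ℝ => l c) hζ0
      simpa using this
    rw [h1, h2, add_zero]
  have hge : ∀ i, 0 ≤ x.2 i - x.1 i (w i) + XA1_K H a m i (w i) := by
    intro i
    have := hxD.2 i (w i) (hcΩ i)
    linarith
  have hsum : ∑ i, (x.2 i - x.1 i (w i) + XA1_K H a m i (w i)) ≤ 0 := by
    have e : ∑ i, (x.2 i - x.1 i (w i) + XA1_K H a m i (w i)) =
        -(∑ i, (σ i - x.2 i) - ∑ i, ζ i (w i)) := by
      rw [← Finset.sum_sub_distrib, ← Finset.sum_neg_distrib]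
      apply Finset.sum_congr rfl
      intro i _
      have : ζ i (w i) = η i (w i) - x.1 i (w i) := rfl
      rw [this]
      simp only [hσ]
      ring
    rw [e, ← hBw]
    linarith
  have heq : ∀ i, x.2 i - x.1 i (w i) + XA1_K H a m i (w i) = 0 := by
    intro i
    have h1 := Finset.single_le_sum (f := fun i => x.2 i - x.1 i (w i) + XA1_K H a m i (w i))
      (fun i _ => hge i) (Finset.mem_univ i)
    have h2 := hge i
    linarith
  have hder : ∀ i, x.1 i = XA1_dK H a m i (w i) := by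
    intro i
    have h1 : IsLocalMin (fun v => XA1_K H a m i v - x.1 i v) (w i) := by
      filter_upwards [Cone_mem_nhds (hcΩ i)] with v hv
      have h2 := hxD.2 i v hv
      have h3 := heq i
      linarith
    have h2 : HasFDerivAt (fun v => XA1_K H a m i v - x.1 i v)
        (XA1_dK H a m i (w i) - x.1 i) (w i) :=
      (XA1_hasD h i (hcΩ i)).sub (x.1 i).hasFDerivAt
    have h3 := h1.hasFDerivAt_eq_zero h2
    exact (sub_eq_zero.1 h3).symm
  refine ⟨w, x.1, c, ⟨hcΩ, fun i => ?_, hxD.1, fun i => rfl⟩⟩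
  rw [hder i]
  rfl

end

end AdSBend
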