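import Pool.Agent.helper74.AG.XA1

set_option autoImplicit false

open scoped Topology
open Pool.Agent.helper73.AD

namespace AdSBend

noncomputable section

variable {J : Type} [Fintype J] [DecidableEq J]

theorem XA2_sgq (a : J → ℝ) : sg (qlin a) = ((0 : J → ℝ), a) := by
  have e1 : ∀ j, qlin a ((0, Pi.single j 1) : PS J) = 0 := by
    intro j; rw [XA_qlin]; simp
  have e2 : ∀ j, qlin a ((Pi.single j 1, 0) : PS J) = a j := by
    intro j; rw [XA_qlin]; simp [Pi.single_apply]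
  unfold sg
  ext j
  · simp [e1]
  · simp [e2]

/-- the derivative is Lipschitz on compact convex sets -/
theorem XA2_lip {H : PS J → ℝ} {a : J → ℝ} (h : CHam H a) {S : Set (PS J)} (hS : IsCompact S)
    (hSc : Convex ℝ S) (hSC : S ⊆ Cone J) : ∃ L : ℝ, 0 ≤ L ∧ ∀ x ∈ S, ∀ y ∈ S,
      ‖fderiv ℝ H y - fderiv ℝ H x‖ ≤ L * ‖y - x‖ := by
  have h1 : ContDiffOn ℝ 1 (fderiv ℝ H) (Cone J) :=
    h.smooth.fderiv_of_isOpen isOpen_Cone (by norm_num)
  have h2 : ContinuousOn (fderiv ℝ (fderiv ℝ H)) (Cone J) :=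
    h1.continuousOn_fderiv_of_isOpen isOpen_Cone (by norm_num)
  have h3 : ContinuousOn (fun z => ‖fderiv ℝ (fderiv ℝ H) z‖) S :=
    ContinuousOn.norm (E := PS J →L[ℝ] PS J →L[ℝ] ℝ) (h2.mono hSC)
  obtain ⟨L, hL⟩ := hS.bddAbove_image h3
  refine ⟨max L 0, le_max_right _ _, fun x hx y hy => ?_⟩
  apply hSc.norm_image_sub_le_of_norm_hasFDerivWithin_le (f' := fderiv ℝ (fderiv ℝ H)) _ _ hx hy
  · intro z hz
    exact ((h1.contDiffAt (Cone_mem_nhds (hSC hz))).differentiableAt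
      (by norm_num)).hasFDerivAt.hasFDerivWithinAt
  · intro z hz
    exact (hL (Set.mem_image_of_mem _ hz)).trans (le_max_left _ _)

/-- energy is almost conserved by a trapezoidal step -/
theorem XA2_energy {H : PS J → ℝ} {a : J → ℝ} (h : CHam H a) {S : Set (PS J)}
    (hSc : Convex ℝ S) (hSC : S ⊆ Cone J) {L : ℝ} (hL0 : 0 ≤ L)
    (hL : ∀ x ∈ S, ∀ y ∈ S, ‖fderiv ℝ H y - fderiv ℝ H x‖ ≤ L * ‖y - x‖) {z z' : PS J}
    (hz : z ∈ S) (hz' : z' ∈ S) (c : ℝ)
    (hstep : z' - z = c • sg (fderiv ℝ H z + fderiv ℝ H z')) :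
    |H z' - H z| ≤ L * ‖z' - z‖ * ‖z' - z‖ := by
  set d : PS J →L[ℝ] ℝ := (1 / 2 : ℝ) • (fderiv ℝ H z + fderiv ℝ H z') with hd
  have hd0 : d (z' - z) = 0 := by
    rw [hstep, map_smul, hd]
    change c • ((1 / 2 : ℝ) * (fderiv ℝ H z + fderiv ℝ H z')
      (sg (fderiv ℝ H z + fderiv ℝ H z'))) = 0
    have := XA1_anti (fderiv ℝ H z + fderiv ℝ H z') (fderiv ℝ H z + fderiv ℝ H z')
    have h0 : (fderiv ℝ H z + fderiv ℝ H z') (sg (fderiv ℝ H z + fderiv ℝ H z')) = 0 := by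
      linarith
    rw [h0]; simp
  have hsegS : segment ℝ z z' ⊆ S := hSc.segment_subset hz hz'
  have h1 : ∀ x ∈ segment ℝ z z', HasFDerivWithinAt (fun x => H x - d x)
      (fderiv ℝ H x - d) (segment ℝ z z') x := by
    intro x hx
    have h2 : DifferentiableAt ℝ H x :=
      (h.smooth.contDiffAt (Cone_mem_nhds (hSC (hsegS hx)))).differentiableAt (by norm_num)
    exact (h2.hasFDerivAt.sub d.hasFDerivAt).hasFDerivWithinAt
  have h2 : ∀ x ∈ segment ℝ z z', ‖fderiv ℝ H x - d‖ ≤ L * ‖z' - z‖ := by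
    intro x hx
    obtain ⟨s, t, hs, ht, hst, rfl⟩ := hx
    have h3 := hL _ hz _ (hsegS ⟨s, t, hs, ht, hst, rfl⟩)
    have h4 := hL _ hz' _ (hsegS ⟨s, t, hs, ht, hst, rfl⟩)
    have e1 : s • z + t • z' - z = t • (z' - z) := by
      have : s = 1 - t := by linarith
      rw [this, sub_smul, one_smul, smul_sub]; abel
    have e2 : s • z + t • z' - z' = s • (z - z') := by
      have : t = 1 - s := by linarith
      rw [this, sub_smul, one_smul, smul_sub]; abel
    rw [e1, norm_smul, Real.norm_eq_abs, abs_of_nonneg ht] at h3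
    rw [e2, norm_smul, Real.norm_eq_abs, abs_of_nonneg hs, norm_sub_rev z z'] at h4
    have e3 : fderiv ℝ H (s • z + t • z') - d =
        (1 / 2 : ℝ) • (fderiv ℝ H (s • z + t • z') - fderiv ℝ H z) +
        (1 / 2 : ℝ) • (fderiv ℝ H (s • z + t • z') - fderiv ℝ H z') := by
      rw [hd]; module
    rw [e3]
    refine (norm_add_le _ _).trans ?_
    rw [norm_smul, norm_smul]
    have h5 := norm_nonneg (z' - z)
    have e4 : ‖(1 / 2 : ℝ)‖ = 1 / 2 := by norm_num
    rw [e4]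
    have h6 : L * (t * ‖z' - z‖) + L * (s * ‖z' - z‖) = L * ‖z' - z‖ := by
      rw [← mul_add, ← add_mul, show t + s = 1 by linarith, one_mul]
    have h7 : 0 ≤ L * ‖z' - z‖ := mul_nonneg hL0 h5
    linarith
  have h3 := (convex_segment z z').norm_image_sub_le_of_norm_hasFDerivWithin_le h1 h2
    (left_mem_segment ℝ z z') (right_mem_segment ℝ z z')
  have e : H z' - d z' - (H z - d z) = H z' - H z - d (z' - z) := by
    rw [map_sub]; ring
  rw [e, hd0, sub_zero, Real.norm_eq_abs] at h3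
  exact h3


theorem XA2_norm (l : PS J →L[ℝ] ℝ) :
    ‖l‖ ≤ ∑ j, (|l (Pi.single j 1, 0)| + |l (0, Pi.single j 1)|) := by
  apply l.opNorm_le_bound (Finset.sum_nonneg fun j _ => by positivity)
  intro y
  conv_lhs => rw [ps_eq_sum y]
  rw [map_add, map_sum, map_sum, Real.norm_eq_abs, ← Finset.sum_add_distrib, Finset.sum_mul]
  refine (Finset.abs_sum_le_sum_abs _ _).trans (Finset.sum_le_sum fun j _ => ?_)
  refine (abs_add_le _ _).trans ?_
  rw [map_smul, map_smul, smul_eq_mul, smul_eq_mul, abs_mul, abs_mul, add_mul]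
  have h1 := mul_le_mul_of_nonneg_right (abs_fst_le y j) (abs_nonneg (l (Pi.single j 1, 0)))
  have h2 := mul_le_mul_of_nonneg_right (abs_snd_le y j) (abs_nonneg (l (0, Pi.single j 1)))
  linarith

/-- the discrete trajectory in the original coordinates -/
def XA2_z (a : J → ℝ) {m : ℕ} (w : Fin m → PS J) (i : Fin m) : PS J :=
  w i - ((i.val : ℝ) / m) • ((0 : J → ℝ), a)

theorem XA2_var {H : PS J → ℝ} {a : J → ℝ} {C : ℝ} (hC0 : 0 ≤ C)
    (hC : ∀ z ∈ Cone J, ∀ j,
      |XA_D H a z (0, Pi.single j 1)| ≤ C ∧ XA_D H a z (Pi.single j 1, 0) ≤ C)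
    {m : ℕ} (hm : 0 < m) {w : Fin m → PS J} {ξ : Fin m → (PS J →L[ℝ] ℝ)} {c : PS J}
    (hD : DSol H a m w ξ c) :
    ∑ i, ‖ξ i‖ ≤ m * (3 * Fintype.card J * C) ∧ ∀ i, ‖XA1_u ξ i‖ ≤ 3 * Fintype.card J * C := by
  have hmR : (0 : ℝ) < m := by exact_mod_cast hm
  have hslope : ∀ i, ξ i = XA_D H a (XA2_z a w i) := hD.slope
  have hzC : ∀ i, XA2_z a w i ∈ Cone J := fun i => (XA1_mem a _ _).2 (hD.mem i)
  have h1 : ∀ j, ∑ i, |ξ i (Pi.single j 1, 0)| ≤ m * (2 * C) := by
    intro j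
    have h2 : ∑ l, ξ l ((Pi.single j 1, 0) : PS J) = 0 := by
      have h2 := congrArg (fun l : PS J →L[ℝ] ℝ => l (Pi.single j 1, 0)) hD.sum
      simpa using h2
    have h3 : ∀ i, |ξ i (Pi.single j 1, 0)| ≤ 2 * C - ξ i (Pi.single j 1, 0) := by
      intro i
      have := (hC _ (hzC i) j).2
      rw [← hslope i] at this
      rw [abs_le]; constructor <;> linarith
    have h4 : ∑ i, |ξ i (Pi.single j 1, 0)| ≤ ∑ i, (2 * C - ξ i (Pi.single j 1, 0)) :=
      Finset.sum_le_sum fun i _ => h3 i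
    rw [Finset.sum_sub_distrib, h2, Finset.sum_const, Finset.card_univ, Fintype.card_fin,
      nsmul_eq_mul, sub_zero] at h4
    exact h4
  have h2 : ∀ j, ∑ i, |ξ i (0, Pi.single j 1)| ≤ m * C := by
    intro j
    have h4 : ∑ i, |ξ i (0, Pi.single j 1)| ≤ ∑ _i : Fin m, C :=
      Finset.sum_le_sum fun i _ => by rw [hslope i]; exact (hC _ (hzC i) j).1
    rw [Finset.sum_const, Finset.card_univ, Fintype.card_fin, nsmul_eq_mul] at h4
    exact h4
  have h3 : ∑ i, ‖ξ i‖ ≤ m * (3 * Fintype.card J * C) := by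
    calc ∑ i, ‖ξ i‖ ≤ ∑ i, ∑ j, (|ξ i (Pi.single j 1, 0)| + |ξ i (0, Pi.single j 1)|) :=
          Finset.sum_le_sum fun i _ => XA2_norm (ξ i)
      _ = ∑ j, (∑ i, |ξ i (Pi.single j 1, 0)| + ∑ i, |ξ i (0, Pi.single j 1)|) := by
          rw [Finset.sum_comm]
          exact Finset.sum_congr rfl fun j _ => Finset.sum_add_distrib
      _ ≤ ∑ _j : J, (m * (2 * C) + m * C) :=
          Finset.sum_le_sum fun j _ => add_le_add (h1 j) (h2 j)
      _ = _ := by
          rw [Finset.sum_const, Finset.card_univ, nsmul_eq_mul]; ring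
  refine ⟨h3, fun i => ?_⟩
  unfold XA1_u
  rw [norm_smul, Real.norm_eq_abs, abs_of_pos (by positivity)]
  have h4 : ‖∑ l ∈ Finset.univ.filter (fun l => l < i), ξ l + (1 / 2 : ℝ) • ξ i‖ ≤
      ∑ i, ‖ξ i‖ := by
    refine (norm_add_le _ _).trans ?_
    have h5 : ‖(1 / 2 : ℝ) • ξ i‖ ≤ ‖ξ i‖ := by
      rw [norm_smul]
      have : ‖(1 / 2 : ℝ)‖ = 1 / 2 := by norm_num
      rw [this]
      linarith [norm_nonneg (ξ i)]
    have h6 : ‖∑ l ∈ Finset.univ.filter (fun l => l < i), ξ l‖ ≤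
        ∑ l ∈ Finset.univ.erase i, ‖ξ l‖ := by
      refine (norm_sum_le _ _).trans ?_
      apply Finset.sum_le_sum_of_subset_of_nonneg
      · intro l hl
        rw [Finset.mem_filter] at hl
        rw [Finset.mem_erase]
        exact ⟨hl.2.ne, Finset.mem_univ _⟩
      · intro _ _ _; exact norm_nonneg _
    rw [← Finset.add_sum_erase Finset.univ (fun i => ‖ξ i‖) (Finset.mem_univ i)]
    linarith
  have h5 := (norm_sg_le (∑ l ∈ Finset.univ.filter (fun l => l < i), ξ l +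
    (1 / 2 : ℝ) • ξ i)).trans (h4.trans h3)
  have h6 := mul_le_mul_of_nonneg_left h5 (by positivity : (0 : ℝ) ≤ 1 / m)
  refine h6.trans (le_of_eq ?_)
  field_simp

theorem XA2_start {H : PS J → ℝ} {a : J → ℝ} (h : CHam H a) : ∃ C1 V : ℝ, 0 ≤ V ∧
    ∀ m : ℕ, 0 < m → ∀ (w : Fin m → PS J) (ξ : Fin m → (PS J →L[ℝ] ℝ)) (c : PS J),
      DSol H a m w ξ c → (∃ i0, XA_G H a (XA2_z a w i0) ≤ C1) ∧ ∀ i, ‖w i - c‖ ≤ V := by
  obtain ⟨C, hC0, hC⟩ := XA_slope h
  set V : ℝ := 3 * Fintype.card J * C with hV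
  have hV0 : 0 ≤ V := by positivity
  set w0 : PS J := (fun _ => 1, 0) with hw0
  have hw0C : w0 ∈ Cone J := fun j => by simp [hw0]
  have hcont : ContinuousOn (fun s : ℝ => XA_G H a (w0 - s • ((0 : J → ℝ), a)))
      (Set.Icc 0 1) := by
    apply (XA_cont h).comp
    · exact (continuous_const.sub (continuous_id.smul continuous_const)).continuousOn
    · intro s _
      exact (XA1_mem a s w0).2 hw0C
  obtain ⟨Cs, hCs⟩ := isCompact_Icc.bddAbove_image hcont
  refine ⟨Cs + V ^ 2, V, hV0, fun m hm w ξ c hD => ?_⟩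
  have hmR : (0 : ℝ) < m := by exact_mod_cast hm
  obtain ⟨hsum, hu⟩ := XA2_var hC0 hC hm hD
  have hwu : ∀ i, w i = XA1_u ξ i + c := hD.step
  have hslope : ∀ i, ξ i = XA1_dK H a m i (w i) := hD.slope
  constructor
  · have h1 : ∀ i, XA1_K H a m i (w i) ≤ (Cs + ξ i (XA1_u ξ i)) + ξ i (c - w0) := by
      intro i
      have h2 := XA1_tangent h i (hD.mem i) hw0C
      rw [← hslope i] at h2
      have h3 : XA1_K H a m i w0 ≤ Cs := by
        apply hCs
        refine ⟨(i.val : ℝ) / m, ⟨by positivity, ?_⟩, rfl⟩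
        rw [div_le_one hmR]
        exact_mod_cast i.isLt.le
      have e : ξ i (w0 - w i) = -(ξ i (XA1_u ξ i)) - ξ i (c - w0) := by
        rw [hwu i, ← map_neg, ← map_sub]
        congr 1
        abel
      rw [e] at h2
      linarith
    have h2 : ∑ i, XA1_K H a m i (w i) ≤ ∑ _i : Fin m, (Cs + V ^ 2) := by
      calc ∑ i, XA1_K H a m i (w i) ≤ ∑ i, ((Cs + ξ i (XA1_u ξ i)) + ξ i (c - w0)) :=
            Finset.sum_le_sum fun i _ => h1 i
        _ = m * Cs + ∑ i, ξ i (XA1_u ξ i) := by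
            rw [Finset.sum_add_distrib, Finset.sum_add_distrib]
            have : ∑ i, ξ i (c - w0) = 0 := by
              have := congrArg (fun l : PS J →L[ℝ] ℝ => l (c - w0)) hD.sum
              simpa using this
            rw [this, Finset.sum_const, Finset.card_univ, Fintype.card_fin, nsmul_eq_mul, add_zero]
        _ ≤ m * Cs + ∑ i, ‖ξ i‖ * V := by
            gcongr with i _
            calc ξ i (XA1_u ξ i) ≤ ‖ξ i (XA1_u ξ i)‖ := le_abs_self _
              _ ≤ ‖ξ i‖ * ‖XA1_u ξ i‖ := (ξ i).le_opNorm _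
              _ ≤ ‖ξ i‖ * V := mul_le_mul_of_nonneg_left (hu i) (norm_nonneg _)
        _ ≤ m * Cs + m * V * V := by
            rw [← Finset.sum_mul]
            gcongr
        _ = _ := by
            rw [Finset.sum_const, Finset.card_univ, Fintype.card_fin, nsmul_eq_mul]; ring
    have : Nonempty (Fin m) := ⟨⟨0, hm⟩⟩
    obtain ⟨i0, -, h3⟩ := Finset.exists_le_of_sum_le Finset.univ_nonempty h2
    exact ⟨i0, h3⟩
  · intro i
    rw [hwu i, add_sub_cancel_right]
    exact hu i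

theorem XA2_stepeq {H : PS J → ℝ} {a : J → ℝ} {m : ℕ} (hm : 0 < m)
    {w : Fin m → PS J} {ξ : Fin m → (PS J →L[ℝ] ℝ)} {c : PS J} (hD : DSol H a m w ξ c)
    (i i' : Fin m) (hi : i'.val = i.val + 1) :
    XA2_z a w i' - XA2_z a w i = (1 / (2 * (m : ℝ))) •
      sg (fderiv ℝ H (XA2_z a w i) + fderiv ℝ H (XA2_z a w i')) := by
  have hmR : (0 : ℝ) < m := by exact_mod_cast hm
  have h1 : Finset.univ.filter (fun l => l < i') =
      insert i (Finset.univ.filter (fun l => l < i)) := by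
    ext l
    simp only [Finset.mem_filter, Finset.mem_univ, true_and, Finset.mem_insert, Fin.lt_def,
      Fin.ext_iff]
    omega
  have h2 : w i' - w i = (1 / (2 * (m : ℝ))) • sg (ξ i + ξ i') := by
    rw [hD.step i', hD.step i, h1, Finset.sum_insert (by simp), add_sub_add_right_eq_sub,
      ← smul_sub, ← sgL_apply, ← sgL_apply, ← map_sub, ← sgL_apply, ← map_smul, ← map_smul]
    congr 1
    module
  have h3 : ξ i + ξ i' = (fderiv ℝ H (XA2_z a w i) + fderiv ℝ H (XA2_z a w i')) +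
      (2 : ℝ) • qlin a := by
    rw [hD.slope i, hD.slope i']
    unfold XA2_z
    module
  have h4 : XA2_z a w i' - XA2_z a w i = (w i' - w i) - (1 / (m : ℝ)) • ((0 : J → ℝ), a) := by
    unfold XA2_z
    rw [hi]
    push_cast
    rw [add_div, add_smul]
    abel
  rw [h4, h2, h3, sg_add, sg_smul, XA2_sgq, smul_add, smul_smul, add_sub_assoc]
  have : 1 / (2 * (m : ℝ)) * 2 = 1 / m := by field_simp
  rw [this, sub_self, add_zero]

theorem XA2 : XA2_stmt := by
  intro J _ _ H a h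
  obtain ⟨C1, V, hV0, hstart⟩ := XA2_start h
  obtain ⟨C, hC0, hC⟩ := XA_slope h
  obtain ⟨δ1, B1, hδ1, hbox1⟩ := XA_proper h C1
  set A : ℝ := ‖((0 : J → ℝ), a)‖ with hA
  have hA0 : 0 ≤ A := norm_nonneg _
  set Nq : ℝ := ‖qlin a‖ with hNq
  have hNq0 : 0 ≤ Nq := norm_nonneg _
  set B3 : ℝ := |B1| + 2 * A + 2 * V with hB3
  have hB30 : 0 ≤ B3 := by positivity
  set E0 : ℝ := C1 + Nq * B3 with hE0
  obtain ⟨δ2, B2, hδ2, hbox2⟩ := XA_proper h (E0 + 1 + Nq * B3)
  have hδ2' : 0 < δ2 / 2 := by linarith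
  have hSC : XA_box J (δ2 / 2) B3 ⊆ Cone J := XA_box_sub hδ2'
  obtain ⟨L, hL0, hL⟩ := XA2_lip h (XA_box_compact (δ2 / 2) B3) (XA_box_convex (δ2 / 2) B3) hSC
  have hdc : ContinuousOn (fderiv ℝ H) (Cone J) :=
    h.smooth.continuousOn_fderiv_of_isOpen isOpen_Cone (by norm_num)
  obtain ⟨M', hM'⟩ := (XA_box_compact (δ2 / 2) B3).bddAbove_image (hdc.mono hSC).norm
  set M : ℝ := max M' 0 with hM
  have hM0 : 0 ≤ M := le_max_right _ _
  have hMb : ∀ z ∈ XA_box J (δ2 / 2) B3, ‖fderiv ℝ H z‖ ≤ M := fun z hz =>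
    (hM' (Set.mem_image_of_mem _ hz)).trans (le_max_left _ _)
  set m₀ : ℕ := ⌈2 * C / δ2⌉₊ + ⌈L * M ^ 2⌉₊ + 1 with hm₀
  refine ⟨δ2 / 2, B3, m₀, hδ2', by omega, fun m hm w ξ c hD => ?_⟩
  have hm0 : 0 < m := by omega
  have hmR : (0 : ℝ) < m := by exact_mod_cast hm0
  have hm1 : C / m ≤ δ2 / 2 := by
    have h1 : 2 * C / δ2 ≤ m := by
      have h2 := Nat.le_ceil (2 * C / δ2)
      have h3 : ((⌈2 * C / δ2⌉₊ : ℕ) : ℝ) ≤ m := by
        have : ⌈2 * C / δ2⌉₊ ≤ m := by omega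
        exact_mod_cast this
      linarith
    rw [div_le_iff₀ hδ2] at h1
    rw [div_le_div_iff₀ hmR two_pos]
    linarith
  have hm2 : L * M ^ 2 ≤ m := by
    have h2 := Nat.le_ceil (L * M ^ 2)
    have h3 : ((⌈L * M ^ 2⌉₊ : ℕ) : ℝ) ≤ m := by
      have : ⌈L * M ^ 2⌉₊ ≤ m := by omega
      exact_mod_cast this
    linarith
  set κ : ℝ := L * M ^ 2 / (m : ℝ) ^ 2 with hκ
  have hκ0 : 0 ≤ κ := by positivity
  have hmκ : m * κ ≤ 1 := by
    rw [hκ, mul_div_assoc', div_le_one (by positivity)]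
    nlinarith
  obtain ⟨⟨i0, hi0⟩, hwc⟩ := hstart m hm0 w ξ c hD
  have hzC : ∀ i, XA2_z a w i ∈ Cone J := fun i => (XA1_mem a _ _).2 (hD.mem i)
  have hfrac : ∀ i : Fin m, ‖((i.val : ℝ) / m) • ((0 : J → ℝ), a)‖ ≤ A := by
    intro i
    rw [norm_smul, Real.norm_eq_abs, abs_of_nonneg (by positivity)]
    have : (i.val : ℝ) / m ≤ 1 := by
      rw [div_le_one hmR]; exact_mod_cast i.isLt.le
    exact mul_le_of_le_one_left hA0 this
  -- all points are bounded
  have hz0 : ‖XA2_z a w i0‖ ≤ |B1| := by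
    have h1 := hbox1 _ (hzC i0) hi0
    rw [Prod.norm_def]
    apply max_le
    · rw [pi_norm_le_iff_of_nonneg (abs_nonneg _)]
      intro j
      obtain ⟨h2, h3, -⟩ := h1 j
      rw [Real.norm_eq_abs, abs_of_pos (hδ1.trans_le h2)]
      exact h3.trans (le_abs_self _)
    · rw [pi_norm_le_iff_of_nonneg (abs_nonneg _)]
      intro j
      obtain ⟨-, -, h4⟩ := h1 j
      rw [Real.norm_eq_abs]
      exact h4.trans (le_abs_self _)
  have hwb : ∀ i, ‖w i‖ ≤ |B1| + A + 2 * V := by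
    intro i
    have e : w i = (w i - c) - (w i0 - c) + (XA2_z a w i0 +
        ((i0.val : ℝ) / m) • ((0 : J → ℝ), a)) := by unfold XA2_z; abel
    rw [e]
    refine (norm_add_le _ _).trans ?_
    have h1 := norm_sub_le (w i - c) (w i0 - c)
    have h2 := norm_add_le (XA2_z a w i0) (((i0.val : ℝ) / m) • ((0 : J → ℝ), a))
    have h3 := hwc i
    have h4 := hwc i0
    have h5 := hfrac i0
    linarith
  have hzb : ∀ i, ‖XA2_z a w i‖ ≤ B3 := by
    intro i
    unfold XA2_z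
    refine (norm_sub_le _ _).trans ?_
    have h1 := hwb i
    have h2 := hfrac i
    rw [hB3]; linarith
  have hql : ∀ i, |qlin a (XA2_z a w i)| ≤ Nq * B3 := fun i =>
    ((qlin a).le_opNorm _).trans (mul_le_mul_of_nonneg_left (hzb i) hNq0)
  -- membership from the energy bound
  have hmemS : ∀ i, H (XA2_z a w i) ≤ E0 + 1 → (∀ j, δ2 ≤ (XA2_z a w i).1 j) ∧
      XA2_z a w i ∈ XA_box J (δ2 / 2) B3 := by
    intro i hi
    have h1 := hbox2 _ (hzC i) (by
      unfold XA_G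
      linarith [le_abs_self (qlin a (XA2_z a w i)), hql i])
    refine ⟨fun j => (h1 j).1, fun j => ⟨?_, ?_, ?_⟩⟩
    · linarith [(h1 j).1]
    · exact (le_abs_self _).trans ((abs_fst_le _ j).trans (hzb i))
    · exact (abs_snd_le _ j).trans (hzb i)
  -- one step
  have hone : ∀ (i i' : Fin m) (s : ℝ), |s| = 1 / (2 * (m : ℝ)) →
      XA2_z a w i' - XA2_z a w i = s • sg (fderiv ℝ H (XA2_z a w i) +
        fderiv ℝ H (XA2_z a w i')) → H (XA2_z a w i) ≤ E0 + 1 →
      H (XA2_z a w i') ≤ H (XA2_z a w i) + κ := by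
    intro i i' s hs hstep hE
    obtain ⟨hq, hzS⟩ := hmemS i hE
    have hz'S : XA2_z a w i' ∈ XA_box J (δ2 / 2) B3 := by
      intro j
      refine ⟨?_, (le_abs_self _).trans ((abs_fst_le _ j).trans (hzb i')),
        (abs_snd_le _ j).trans (hzb i')⟩
      have h1 : (XA2_z a w i').1 j - (XA2_z a w i).1 j = s * (-(fderiv ℝ H (XA2_z a w i) +
          fderiv ℝ H (XA2_z a w i')) (0, Pi.single j 1)) := by
        have h2 := congrArg (fun x : PS J => x.1 j) hstep
        simpa [sg] using h2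
      have e : ∀ i, XA_D H a (XA2_z a w i) (0, Pi.single j 1) =
          fderiv ℝ H (XA2_z a w i) (0, Pi.single j 1) := by
        intro i
        unfold XA_D
        have : qlin a ((0, Pi.single j 1) : PS J) = 0 := by rw [XA_qlin]; simp
        change fderiv ℝ H (XA2_z a w i) (0, Pi.single j 1) + qlin a (0, Pi.single j 1) = _
        rw [this, add_zero]
      have h2 : |s * (-(fderiv ℝ H (XA2_z a w i) +
          fderiv ℝ H (XA2_z a w i')) (0, Pi.single j 1))| ≤ C / m := by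
        rw [abs_mul, hs]
        have h3 : |-(fderiv ℝ H (XA2_z a w i) +
            fderiv ℝ H (XA2_z a w i')) (0, Pi.single j 1)| ≤ 2 * C := by
          rw [abs_neg]
          change |fderiv ℝ H (XA2_z a w i) (0, Pi.single j 1) +
            fderiv ℝ H (XA2_z a w i') (0, Pi.single j 1)| ≤ 2 * C
          have h4 := (hC _ (hzC i) j).1
          have h5 := (hC _ (hzC i') j).1
          rw [e] at h4 h5
          exact (abs_add_le _ _).trans (by linarith)
        calc 1 / (2 * (m : ℝ)) * _ ≤ 1 / (2 * (m : ℝ)) * (2 * C) :=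
              mul_le_mul_of_nonneg_left h3 (by positivity)
          _ = C / m := by field_simp
      rw [← h1] at h2
      have h3 := (abs_le.1 h2).1
      have h4 := hq j
      linarith
    have h1 := XA2_energy h (XA_box_convex (δ2 / 2) B3) hSC hL0 hL hzS hz'S s hstep
    have h2 : ‖XA2_z a w i' - XA2_z a w i‖ ≤ M / m := by
      rw [hstep, norm_smul, Real.norm_eq_abs, hs]
      have h3 : ‖sg (fderiv ℝ H (XA2_z a w i) + fderiv ℝ H (XA2_z a w i'))‖ ≤ 2 * M := by
        refine (norm_sg_le _).trans ((norm_add_le _ _).trans ?_)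
        linarith [hMb _ hzS, hMb _ hz'S]
      calc 1 / (2 * (m : ℝ)) * _ ≤ 1 / (2 * (m : ℝ)) * (2 * M) :=
            mul_le_mul_of_nonneg_left h3 (by positivity)
        _ = M / m := by field_simp
    have h3 : L * ‖XA2_z a w i' - XA2_z a w i‖ * ‖XA2_z a w i' - XA2_z a w i‖ ≤ κ := by
      have h4 := norm_nonneg (XA2_z a w i' - XA2_z a w i)
      calc L * ‖XA2_z a w i' - XA2_z a w i‖ * ‖XA2_z a w i' - XA2_z a w i‖ ≤
            L * (M / m) * (M / m) := by gcongr
        _ = κ := by rw [hκ]; field_simp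
    linarith [le_abs_self (H (XA2_z a w i') - H (XA2_z a w i))]
  have hE00 : H (XA2_z a w i0) ≤ E0 := by
    have h1 : XA_G H a (XA2_z a w i0) = H (XA2_z a w i0) + qlin a (XA2_z a w i0) := rfl
    rw [h1] at hi0
    have := (abs_le.1 (hql i0)).1
    rw [hE0]; linarith
  have hn1 : ∀ n : ℕ, n ≤ m → (n : ℝ) * κ ≤ 1 := by
    intro n hn
    have : (n : ℝ) ≤ m := by exact_mod_cast hn
    exact (mul_le_mul_of_nonneg_right this hκ0).trans hmκ
  have hup : ∀ n : ℕ, ∀ hn : i0.val + n < m, H (XA2_z a w ⟨i0.val + n, hn⟩) ≤ E0 + n * κ := by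
    intro n
    induction n with
    | zero => intro hn; simpa using hE00
    | succ n ih =>
      intro hn
      have h1 := ih (by omega)
      have h2 := hone ⟨i0.val + n, by omega⟩ ⟨i0.val + (n + 1), hn⟩ (1 / (2 * (m : ℝ)))
        (abs_of_pos (by positivity)) (XA2_stepeq hm0 hD _ _ (by simp; omega))
        (by linarith [hn1 n (by omega)])
      push_cast
      linarith
  have hdown : ∀ n : ℕ, ∀ hn : n ≤ i0.val, H (XA2_z a w ⟨i0.val - n, by omega⟩) ≤
      E0 + n * κ := by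
    intro n
    induction n with
    | zero => intro hn; simpa using hE00
    | succ n ih =>
      intro hn
      have h1 := ih (by omega)
      have h2 := hone ⟨i0.val - n, by omega⟩ ⟨i0.val - (n + 1), by omega⟩
        (-(1 / (2 * (m : ℝ)))) (by rw [abs_neg]; exact abs_of_pos (by positivity)) (by
          have := XA2_stepeq hm0 hD ⟨i0.val - (n + 1), by omega⟩ ⟨i0.val - n, by omega⟩
            (by simp; omega)
          rw [← neg_sub, this, neg_smul, add_comm (fderiv ℝ H _) (fderiv ℝ H _)])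
        (by linarith [hn1 n (by omega)])
      push_cast
      linarith
  have hall : ∀ i, H (XA2_z a w i) ≤ E0 + 1 := by
    intro i
    rcases le_total i0.val i.val with h1 | h1
    · obtain ⟨n, hn⟩ := Nat.exists_eq_add_of_le h1
      have h2 := hup n (by omega)
      have e : (⟨i0.val + n, by omega⟩ : Fin m) = i := Fin.ext hn.symm
      rw [e] at h2
      linarith [hn1 n (by omega)]
    · obtain ⟨n, hn⟩ := Nat.exists_eq_add_of_le h1
      have h2 := hdown n (by omega)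
      have e : (⟨i0.val - n, by omega⟩ : Fin m) = i := Fin.ext (by simp; omega)
      rw [e] at h2
      linarith [hn1 n (by omega)]
  intro i j
  obtain ⟨-, hS⟩ := hmemS i (hall i)
  obtain ⟨h1, h2, -⟩ := hS j
  have e : (XA2_z a w i).1 j = (w i).1 j := by unfold XA2_z; simp
  rw [e] at h1 h2
  refine ⟨h1, h2, (abs_snd_le _ j).trans ((hwb i).trans ?_)⟩
  rw [hB3]; linarith

end

end AdSBend
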