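import Pool.Agent.helper74.AG.XA2

set_option autoImplicit false

open scoped Topology
open Pool.Agent.helper73.AD

namespace AdSBend

noncomputable section

variable {J : Type} [Fintype J] [DecidableEq J]

theorem XA3_clamp1 (l u x y : ℝ) : |max l (min x u) - max l (min y u)| ≤ |x - y| := by
  have h1 : ∀ a b : ℝ, |max l a - max l b| ≤ |a - b| := by
    intro a b
    rw [max_comm l a, max_comm l b]
    exact abs_max_sub_max_le_abs a b l
  have h2 : |min x u - min y u| ≤ |x - y| := by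
    rcases le_total x u with h | h <;> rcases le_total y u with h' | h'
    · rw [min_eq_left h, min_eq_left h']
    · rw [min_eq_left h, min_eq_right h', abs_of_nonpos (by linarith), abs_of_nonpos (by linarith)]
      linarith
    · rw [min_eq_right h, min_eq_left h', abs_of_nonneg (by linarith), abs_of_nonneg (by linarith)]
      linarith
    · rw [min_eq_right h, min_eq_right h']; simp
  exact (h1 _ _).trans h2

omit [DecidableEq J] in
theorem XA3_clamp (δ B : ℝ) (h : ∀ _ : J, δ ≤ B ∧ 0 ≤ B) : ∃ P : PS J → PS J,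
    (∀ z, P z ∈ XA_box J δ B) ∧ (∀ z ∈ XA_box J δ B, P z = z) ∧
    ∀ x y, ‖P x - P y‖ ≤ ‖x - y‖ := by
  refine ⟨fun z => (fun j => max δ (min (z.1 j) B), fun j => max (-B) (min (z.2 j) B)),
    fun z j => ?_, fun z hz => ?_, fun x y => ?_⟩
  · obtain ⟨h1, h2⟩ := h j
    refine ⟨le_max_left _ _, max_le h1 (min_le_right _ _), ?_⟩
    rw [abs_le]
    exact ⟨le_max_left _ _, max_le (by linarith) (min_le_right _ _)⟩
  · ext j
    · obtain ⟨h1, h2, -⟩ := hz j
      simp only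
      rw [min_eq_left h2, max_eq_right h1]
    · obtain ⟨-, -, h3⟩ := hz j
      rw [abs_le] at h3
      simp only
      rw [min_eq_left h3.2, max_eq_right h3.1]
  · rw [Prod.norm_def]
    apply max_le
    · rw [pi_norm_le_iff_of_nonneg (norm_nonneg _)]
      intro j
      rw [Real.norm_eq_abs]
      refine (XA3_clamp1 _ _ _ _).trans ?_
      exact abs_fst_le (x - y) j
    · rw [pi_norm_le_iff_of_nonneg (norm_nonneg _)]
      intro j
      rw [Real.norm_eq_abs]
      refine (XA3_clamp1 _ _ _ _).trans ?_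
      exact abs_snd_le (x - y) j

section ode

variable {E : Type*} [NormedAddCommGroup E] [NormedSpace ℝ E] [CompleteSpace E]

theorem XA3_ode (X : E → E) (L M : ℝ) (hL0 : 0 ≤ L) (hM0 : 0 ≤ M)
    (hL : ∀ x y, ‖X x - X y‖ ≤ L * ‖x - y‖) (hM : ∀ x, ‖X x‖ ≤ M) (z0 : E) :
    ∃ z : ℝ → E, z 0 = z0 ∧ ∀ t ∈ Set.Icc (0 : ℝ) 1,
      HasDerivWithinAt z (X (z t)) (Set.Icc 0 1) t := by
  have hPL : IsPicardLindelof (fun _ => X) (⟨0, by norm_num⟩ : Set.Icc (0 : ℝ) 1) z0
      ⟨M, hM0⟩ 0 ⟨M, hM0⟩ ⟨L, hL0⟩ := by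
    refine ⟨fun t _ => ?_, fun x _ => continuousOn_const, fun t _ x _ => hM x, ?_⟩
    · apply LipschitzOnWith.of_dist_le_mul
      intro x _ y _
      rw [dist_eq_norm, dist_eq_norm]
      exact hL x y
    · simp
  obtain ⟨z, hz0, hz⟩ := hPL.exists_eq_forall_mem_Icc_hasDerivWithinAt₀
  exact ⟨z, hz0, hz⟩

omit [CompleteSpace E] in
theorem XA3_speed {X : E → E} {M : ℝ} (hM : ∀ x, ‖X x‖ ≤ M) {z : ℝ → E}
    (hz : ∀ t ∈ Set.Icc (0 : ℝ) 1, HasDerivWithinAt z (X (z t)) (Set.Icc 0 1) t) {s t : ℝ}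
    (hs : s ∈ Set.Icc (0 : ℝ) 1) (ht : t ∈ Set.Icc (0 : ℝ) 1) : ‖z t - z s‖ ≤ M * |t - s| := by
  have := (convex_Icc (0 : ℝ) 1).norm_image_sub_le_of_norm_hasDerivWithin_le hz
    (fun x _ => hM (z x)) hs ht
  rwa [Real.norm_eq_abs] at this

omit [CompleteSpace E] in
theorem XA3_trunc {X : E → E} {L M : ℝ} (hL0 : 0 ≤ L) (hM0 : 0 ≤ M)
    (hL : ∀ x y, ‖X x - X y‖ ≤ L * ‖x - y‖) (hM : ∀ x, ‖X x‖ ≤ M) {z : ℝ → E}
    (hz : ∀ t ∈ Set.Icc (0 : ℝ) 1, HasDerivWithinAt z (X (z t)) (Set.Icc 0 1) t) {s t : ℝ}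
    (hs : 0 ≤ s) (hst : s ≤ t) (ht : t ≤ 1) :
    ‖z t - z s - (t - s) • X (z s)‖ ≤ L * M * (t - s) ^ 2 := by
  have hsub : Set.Icc s t ⊆ Set.Icc (0 : ℝ) 1 := Set.Icc_subset_Icc hs ht
  have h1 : ∀ r ∈ Set.Icc s t, HasDerivWithinAt (fun r => z r - r • X (z s))
      (X (z r) - X (z s)) (Set.Icc s t) r := by
    intro r hr
    have h2 := (hz r (hsub hr)).mono hsub
    have h3 : HasDerivWithinAt (fun r : ℝ => r • X (z s)) (X (z s)) (Set.Icc s t) r := by
      have := (hasDerivWithinAt_id r (Set.Icc s t)).smul_const (X (z s))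
      simpa using this
    exact h2.sub h3
  have h2 : ∀ r ∈ Set.Icc s t, ‖X (z r) - X (z s)‖ ≤ L * (M * (t - s)) := by
    intro r hr
    refine (hL _ _).trans (mul_le_mul_of_nonneg_left ?_ hL0)
    refine (XA3_speed hM hz (hsub ⟨le_rfl, hst⟩) (hsub hr)).trans
      (mul_le_mul_of_nonneg_left ?_ hM0)
    rw [abs_of_nonneg (by linarith [hr.1])]
    linarith [hr.2]
  have h3 := (convex_Icc s t).norm_image_sub_le_of_norm_hasDerivWithin_le h1 h2
    ⟨le_rfl, hst⟩ ⟨hst, le_rfl⟩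
  have e : z t - t • X (z s) - (z s - s • X (z s)) = z t - z s - (t - s) • X (z s) := by
    rw [sub_smul]; abel
  rw [e, Real.norm_eq_abs, abs_of_nonneg (by linarith)] at h3
  refine h3.trans (le_of_eq ?_)
  ring

end ode

/-- closing step -/
theorem XA3_close {H : PS J → ℝ} {a : J → ℝ} {m : ℕ} (hm : 0 < m)
    {w : Fin m → PS J} {ξ : Fin m → (PS J →L[ℝ] ℝ)} {c : PS J} (hD : DSol H a m w ξ c) :
    XA2_z a w ⟨0, hm⟩ - ((0 : J → ℝ), a) - XA2_z a w ⟨m - 1, by omega⟩ =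
      (1 / (2 * (m : ℝ))) • sg (ξ ⟨0, hm⟩ + ξ ⟨m - 1, by omega⟩) -
        (1 / (m : ℝ)) • ((0 : J → ℝ), a) := by
  have hmR : (0 : ℝ) < m := by exact_mod_cast hm
  set i0 : Fin m := ⟨0, hm⟩ with hi0
  set i1 : Fin m := ⟨m - 1, by omega⟩ with hi1
  have h0 : Finset.univ.filter (fun l : Fin m => l < i0) = ∅ := by
    ext l
    simp [hi0, Fin.lt_def]
  have h1 : ∑ l ∈ Finset.univ.filter (fun l => l < i1), ξ l = -ξ i1 := by
    have h2 := hD.sum
    rw [← Finset.sum_filter_add_sum_filter_not Finset.univ (fun l => l < i1)] at h2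
    have h3 : Finset.univ.filter (fun l : Fin m => ¬ l < i1) = {i1} := by
      ext l
      have := l.isLt
      simp only [Finset.mem_filter, Finset.mem_univ, true_and, Finset.mem_singleton, Fin.lt_def,
        Fin.ext_iff, hi1]
      omega
    rw [h3, Finset.sum_singleton] at h2
    exact eq_neg_of_add_eq_zero_left h2
  have h2 : w i0 - w i1 = (1 / (2 * (m : ℝ))) • sg (ξ i0 + ξ i1) := by
    rw [hD.step i0, hD.step i1, h0, h1, Finset.sum_empty, add_sub_add_right_eq_sub,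
      ← smul_sub, ← sgL_apply, ← sgL_apply, ← map_sub, ← sgL_apply, ← map_smul, ← map_smul]
    congr 1
    module
  unfold XA2_z
  have e1 : ((i0.val : ℝ) / m) = 0 := by simp [hi0]
  have e2 : ((i1.val : ℝ) / m) = 1 - 1 / m := by
    rw [hi1]
    simp only
    rw [Nat.cast_sub (by omega)]
    field_simp
    simp
  rw [e1, e2, ← h2, zero_smul, sub_zero, sub_smul, one_smul]
  abel

theorem XA3 : XA3_stmt := by
  intro J _ _ H a h
  obtain ⟨δ, B, m₀, hδ, hm₀, hbd⟩ := XA2 J H a h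
  set A : ℝ := ‖((0 : J → ℝ), a)‖ with hA
  have hA0 : 0 ≤ A := norm_nonneg _
  have hex : ∀ k : ℕ, ∃ w ξ c, DSol H a (m₀ + k) w ξ c := fun k => XA1 J H a h _ (by omega)
  choose w ξ c hD using hex
  have hmpos : ∀ k, 0 < m₀ + k := fun k => by omega
  set S : Set (PS J) := XA_box J δ (B + A) with hS
  have hSC : S ⊆ Cone J := XA_box_sub hδ
  have hfrac : ∀ k (i : Fin (m₀ + k)), ‖((i.val : ℝ) / ((m₀ + k : ℕ) : ℝ)) • ((0 : J → ℝ), a)‖ ≤
      A := by
    intro k i
    have hmR : (0 : ℝ) < ((m₀ + k : ℕ) : ℝ) := by exact_mod_cast hmpos k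
    rw [norm_smul, Real.norm_eq_abs, abs_of_nonneg (by positivity)]
    have : (i.val : ℝ) / ((m₀ + k : ℕ) : ℝ) ≤ 1 := by
      rw [div_le_one hmR]; exact_mod_cast i.isLt.le
    exact mul_le_of_le_one_left hA0 this
  have hZS : ∀ k i, XA2_z a (w k) i ∈ S := by
    intro k i j
    obtain ⟨h1, h2, h3⟩ := hbd _ (by omega) _ _ _ (hD k) i j
    have e : (XA2_z a (w k) i).1 j = (w k i).1 j := by unfold XA2_z; simp
    rw [e]
    refine ⟨h1, by linarith, ?_⟩
    have e2 : (XA2_z a (w k) i).2 j = (w k i).2 j -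
        (((i.val : ℝ) / ((m₀ + k : ℕ) : ℝ)) • ((0 : J → ℝ), a)).2 j := rfl
    rw [e2]
    refine (abs_sub _ _).trans (add_le_add h3 ?_)
    exact (abs_snd_le _ j).trans (hfrac k i)
  have hδB : ∀ _ : J, δ ≤ B + A ∧ 0 ≤ B + A := by
    intro j
    obtain ⟨h1, h2, -⟩ := hZS 0 ⟨0, hmpos 0⟩ j
    exact ⟨h1.trans h2, by linarith⟩
  obtain ⟨P, hP1, hP2, hP3⟩ := XA3_clamp δ (B + A) hδB
  obtain ⟨L, hL0, hL⟩ := XA2_lip h (XA_box_compact δ (B + A)) (XA_box_convex δ (B + A)) hSC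
  have hdc : ContinuousOn (fderiv ℝ H) (Cone J) :=
    h.smooth.continuousOn_fderiv_of_isOpen isOpen_Cone (by norm_num)
  obtain ⟨M', hM'⟩ := (XA_box_compact δ (B + A)).bddAbove_image (hdc.mono hSC).norm
  set M : ℝ := max M' 0 with hM
  have hM0 : 0 ≤ M := le_max_right _ _
  have hMb : ∀ z ∈ S, ‖fderiv ℝ H z‖ ≤ M := fun z hz =>
    (hM' (Set.mem_image_of_mem _ hz)).trans (le_max_left _ _)
  -- the extended field
  set X : PS J → PS J := fun z => sg (fderiv ℝ H (P z)) with hX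
  have hXL : ∀ x y, ‖X x - X y‖ ≤ L * ‖x - y‖ := by
    intro x y
    have e : X x - X y = sg (fderiv ℝ H (P x) - fderiv ℝ H (P y)) := by
      simp only [hX]
      rw [← sgL_apply, ← sgL_apply, ← sgL_apply, map_sub]
    rw [e]
    refine (norm_sg_le _).trans ((hL _ (hP1 y) _ (hP1 x)).trans ?_)
    exact mul_le_mul_of_nonneg_left (hP3 x y) hL0
  have hXM : ∀ x, ‖X x‖ ≤ M := fun x => (norm_sg_le _).trans (hMb _ (hP1 x))
  have hXS : ∀ z ∈ S, X z = sg (fderiv ℝ H z) := by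
    intro z hz
    simp only [hX]
    rw [hP2 z hz]
  -- subsequence
  obtain ⟨zs, hzsS, φ, hφ, hlim⟩ := (XA_box_compact (J := J) δ (B + A)).tendsto_subseq
    (x := fun k => XA2_z a (w k) ⟨0, hmpos k⟩) (fun k => hZS k _)
  obtain ⟨z, hz0, hz⟩ := XA3_ode X L M hL0 hM0 hXL hXM zs
  -- comparison
  set er : ℕ → ℝ := fun k => Real.exp L * (‖XA2_z a (w k) ⟨0, hmpos k⟩ - zs‖ +
    2 * M / ((m₀ + k : ℕ) : ℝ)) with her
  have hcmp : ∀ k, ∀ i : Fin (m₀ + k),
      ‖XA2_z a (w k) i - z ((i.val : ℝ) / ((m₀ + k : ℕ) : ℝ))‖ ≤ er k := by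
    intro k
    set m : ℕ := m₀ + k with hm
    have hmR : (0 : ℝ) < (m : ℝ) := by exact_mod_cast hmpos k
    have hind : ∀ n : ℕ, ∀ hn : n < m, ‖XA2_z a (w k) ⟨n, hn⟩ - z ((n : ℝ) / m)‖ + 2 * M / m ≤
        (1 + L / m) ^ n * (‖XA2_z a (w k) ⟨0, hmpos k⟩ - zs‖ + 2 * M / m) := by
      intro n
      induction n with
      | zero => intro hn; simp [hz0]
      | succ n ih =>
        intro hn
        have h1 := ih (by omega)
        set Z : PS J := XA2_z a (w k) ⟨n, by omega⟩ with hZ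
        set Z' : PS J := XA2_z a (w k) ⟨n + 1, hn⟩ with hZ'
        have hZm : Z ∈ S := hZS k _
        have hZm' : Z' ∈ S := hZS k _
        have hst : Z' - Z = (1 / (2 * (m : ℝ))) • sg (fderiv ℝ H Z + fderiv ℝ H Z') :=
          XA2_stepeq (hmpos k) (hD k) ⟨n, by omega⟩ ⟨n + 1, hn⟩ rfl
        have hst2 : Z' - Z - (1 / (m : ℝ)) • X Z = (1 / (2 * (m : ℝ))) • (X Z' - X Z) := by
          rw [hst, hXS Z hZm, hXS Z' hZm', sg_add]
          have : (1 / (m : ℝ)) = 1 / (2 * (m : ℝ)) * 2 := by field_simp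
          rw [this]
          module
        have hdist : ‖Z' - Z‖ ≤ M / m := by
          rw [hst, norm_smul, Real.norm_eq_abs, abs_of_pos (by positivity)]
          have h3 : ‖sg (fderiv ℝ H Z + fderiv ℝ H Z')‖ ≤ 2 * M := by
            refine (norm_sg_le _).trans ((norm_add_le _ _).trans ?_)
            linarith [hMb _ hZm, hMb _ hZm']
          calc 1 / (2 * (m : ℝ)) * _ ≤ 1 / (2 * (m : ℝ)) * (2 * M) :=
                mul_le_mul_of_nonneg_left h3 (by positivity)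
            _ = M / m := by field_simp
        have herr1 : ‖Z' - Z - (1 / (m : ℝ)) • X Z‖ ≤ L * M / (m : ℝ) ^ 2 := by
          rw [hst2, norm_smul, Real.norm_eq_abs, abs_of_pos (by positivity)]
          have h3 : ‖X Z' - X Z‖ ≤ L * (M / m) :=
            (hXL _ _).trans (mul_le_mul_of_nonneg_left hdist hL0)
          calc 1 / (2 * (m : ℝ)) * ‖X Z' - X Z‖ ≤ 1 / (2 * (m : ℝ)) * (L * (M / m)) :=
                mul_le_mul_of_nonneg_left h3 (by positivity)
            _ = L * M / (m : ℝ) ^ 2 / 2 := by field_simp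
            _ ≤ _ := by
                have : 0 ≤ L * M / (m : ℝ) ^ 2 := by positivity
                linarith
        have hn1 : ((n : ℝ) + 1) / m ≤ 1 := by
          rw [div_le_one hmR]; exact_mod_cast hn.le
        have hnn : (0 : ℝ) ≤ (n : ℝ) / m := by positivity
        have hnn1 : (n : ℝ) / m ≤ ((n : ℝ) + 1) / m := by gcongr; linarith
        have hdiff : ((n : ℝ) + 1) / m - (n : ℝ) / m = 1 / m := by ring
        have herr2 := XA3_trunc hL0 hM0 hXL hXM hz hnn hnn1 hn1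
        rw [hdiff] at herr2
        have hXd := hXL Z (z ((n : ℝ) / m))
        have e : Z' - z (((n : ℝ) + 1) / m) = (Z - z ((n : ℝ) / m)) +
            (1 / (m : ℝ)) • (X Z - X (z ((n : ℝ) / m))) + (Z' - Z - (1 / (m : ℝ)) • X Z) -
            (z (((n : ℝ) + 1) / m) - z ((n : ℝ) / m) - (1 / (m : ℝ)) • X (z ((n : ℝ) / m))) := by
          rw [smul_sub]; abel
        have h5 : ‖Z' - z (((n : ℝ) + 1) / m)‖ ≤ ‖Z - z ((n : ℝ) / m)‖ +
            1 / m * (L * ‖Z - z ((n : ℝ) / m)‖) + L * M / (m : ℝ) ^ 2 +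
            L * M * (1 / (m : ℝ)) ^ 2 := by
          rw [e]
          refine (norm_sub_le _ _).trans (add_le_add ?_ herr2)
          refine (norm_add_le _ _).trans (add_le_add ?_ herr1)
          refine (norm_add_le _ _).trans (add_le_add le_rfl ?_)
          rw [norm_smul, Real.norm_eq_abs, abs_of_pos (by positivity)]
          exact mul_le_mul_of_nonneg_left hXd (by positivity)
        push_cast
        rw [pow_succ]
        have h6 : 0 ≤ 1 + L / (m : ℝ) := by positivity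
        have h7 := mul_le_mul_of_nonneg_left h1 h6
        have h8 : (1 + L / (m : ℝ)) * (‖Z - z ((n : ℝ) / m)‖ + 2 * M / m) =
            (‖Z - z ((n : ℝ) / m)‖ + 1 / m * (L * ‖Z - z ((n : ℝ) / m)‖) + L * M / (m : ℝ) ^ 2 +
            L * M * (1 / (m : ℝ)) ^ 2) + 2 * M / m := by
          field_simp
          ring
        calc ‖Z' - z (((n : ℝ) + 1) / m)‖ + 2 * M / m ≤
              (1 + L / (m : ℝ)) * (‖Z - z ((n : ℝ) / m)‖ + 2 * M / m) := by
                rw [h8]; linarith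
          _ ≤ _ := h7
          _ = _ := by ring
    intro i
    have h1 := hind i.val i.isLt
    have h2 : (1 + L / (m : ℝ)) ^ i.val ≤ Real.exp L := by
      have h3 : 1 + L / (m : ℝ) ≤ Real.exp (L / m) := by
        linarith [Real.add_one_le_exp (L / (m : ℝ))]
      calc (1 + L / (m : ℝ)) ^ i.val ≤ Real.exp (L / m) ^ i.val :=
            pow_le_pow_left₀ (by positivity) h3 _
        _ = Real.exp (i.val * (L / m)) := (Real.exp_nat_mul _ _).symm
        _ ≤ Real.exp L := by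
            apply Real.exp_le_exp.2
            have : (i.val : ℝ) ≤ m := by exact_mod_cast i.isLt.le
            rw [mul_div_assoc', div_le_iff₀ hmR]
            nlinarith
    have h4 : 0 ≤ ‖XA2_z a (w k) ⟨0, hmpos k⟩ - zs‖ + 2 * M / (m : ℝ) := by positivity
    have h5 := mul_le_mul_of_nonneg_right h2 h4
    have h6 : 0 ≤ 2 * M / (m : ℝ) := by positivity
    have h7 : ‖XA2_z a (w k) i - z ((i.val : ℝ) / m)‖ + 2 * M / m ≤
        (1 + L / (m : ℝ)) ^ i.val * (‖XA2_z a (w k) ⟨0, hmpos k⟩ - zs‖ + 2 * M / m) := h1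
    simp only [her]
    linarith
  -- the errors tend to zero
  have hinv : Filter.Tendsto (fun n => (1 : ℝ) / ((m₀ + φ n : ℕ) : ℝ)) Filter.atTop (𝓝 0) := by
    have h1 : Filter.Tendsto (fun n => ((m₀ + φ n : ℕ) : ℝ)) Filter.atTop Filter.atTop := by
      apply tendsto_natCast_atTop_atTop.comp
      apply Filter.tendsto_atTop_mono (fun n => Nat.le_add_left _ _)
      exact hφ.tendsto_atTop
    refine h1.inv_tendsto_atTop.congr fun n => ?_
    simp
  have herlim : Filter.Tendsto (fun n => er (φ n)) Filter.atTop (𝓝 0) := by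
    have h1 : Filter.Tendsto (fun n => ‖XA2_z a (w (φ n)) ⟨0, hmpos (φ n)⟩ - zs‖)
        Filter.atTop (𝓝 0) := by
      rw [← tendsto_iff_norm_sub_tendsto_zero]
      exact hlim
    have h2 := (h1.add (hinv.const_mul (2 * M))).const_mul (Real.exp L)
    simp only [mul_zero, add_zero] at h2
    refine h2.congr fun n => ?_
    simp only [her]
    ring
  -- values near time `t`
  have hnear : ∀ t ∈ Set.Icc (0 : ℝ) 1, ∀ i : ∀ n, Fin (m₀ + φ n),
      (∀ n, |((i n).val : ℝ) / ((m₀ + φ n : ℕ) : ℝ) - t| ≤ 1 / ((m₀ + φ n : ℕ) : ℝ)) →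
      Filter.Tendsto (fun n => XA2_z a (w (φ n)) (i n)) Filter.atTop (𝓝 (z t)) := by
    intro t ht i hi
    rw [tendsto_iff_norm_sub_tendsto_zero]
    have h1 := herlim.add (hinv.const_mul M)
    simp only [mul_zero, add_zero] at h1
    refine squeeze_zero (fun n => norm_nonneg _) (fun n => ?_) h1
    have hmR : (0 : ℝ) < ((m₀ + φ n : ℕ) : ℝ) := by exact_mod_cast hmpos _
    have h2 := hcmp (φ n) (i n)
    have h3 : ((i n).val : ℝ) / ((m₀ + φ n : ℕ) : ℝ) ∈ Set.Icc (0 : ℝ) 1 := by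
      refine ⟨by positivity, ?_⟩
      rw [div_le_one hmR]; exact_mod_cast (i n).isLt.le
    have h4 := (XA3_speed hXM hz ht h3).trans (mul_le_mul_of_nonneg_left (hi n) hM0)
    have e : XA2_z a (w (φ n)) (i n) - z t = (XA2_z a (w (φ n)) (i n) -
        z (((i n).val : ℝ) / ((m₀ + φ n : ℕ) : ℝ))) +
        (z (((i n).val : ℝ) / ((m₀ + φ n : ℕ) : ℝ)) - z t) := by abel
    rw [e]
    exact (norm_add_le _ _).trans (add_le_add h2 h4)
  have hzS : ∀ t ∈ Set.Icc (0 : ℝ) 1, z t ∈ S := by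
    intro t ht
    have h1 := hnear t ht (fun n => ⟨min ⌊t * ((m₀ + φ n : ℕ) : ℝ)⌋₊ (m₀ + φ n - 1), by
      have := hmpos (φ n); omega⟩) (fun n => by
        have hmp := hmpos (φ n)
        have hmR : (0 : ℝ) < ((m₀ + φ n : ℕ) : ℝ) := by exact_mod_cast hmp
        simp only
        set mm : ℕ := m₀ + φ n with hmm
        have h2 := Nat.floor_le (mul_nonneg ht.1 hmR.le)
        have h3 := Nat.lt_floor_add_one (t * (mm : ℝ))
        have h5 : t * (mm : ℝ) ≤ mm := mul_le_of_le_one_left hmR.le ht.2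
        rw [show ((min ⌊t * (mm : ℝ)⌋₊ (mm - 1) : ℕ) : ℝ) / (mm : ℝ) - t =
          (((min ⌊t * (mm : ℝ)⌋₊ (mm - 1) : ℕ) : ℝ) - t * mm) / mm by field_simp, abs_div,
          abs_of_pos hmR]
        apply div_le_div_of_nonneg_right _ hmR.le
        rw [abs_le]
        rcases le_total ⌊t * (mm : ℝ)⌋₊ (mm - 1) with h4 | h4
        · rw [min_eq_left h4]
          constructor <;> linarith
        · rw [min_eq_right h4]
          have h6 : ((mm - 1 : ℕ) : ℝ) = mm - 1 := by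
            rw [Nat.cast_sub (by omega)]; simp
          have h7 : ((mm - 1 : ℕ) : ℝ) ≤ (⌊t * (mm : ℝ)⌋₊ : ℝ) := by exact_mod_cast h4
          rw [h6] at h7 ⊢
          constructor <;> linarith)
    exact (XA_box_compact δ (B + A)).isClosed.mem_of_tendsto h1
      (Filter.Eventually.of_forall fun n => hZS _ _)
  refine ⟨z, fun t ht => ⟨hSC (hzS t ht), ?_⟩, ?_⟩
  · have := hz t ht
    rwa [hXS _ (hzS t ht)] at this
  · -- closing
    have h1 := hnear 1 ⟨zero_le_one, le_rfl⟩ (fun n => ⟨m₀ + φ n - 1, by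
      have := hmpos (φ n); omega⟩) (fun n => by
        have hmp := hmpos (φ n)
        have hmR : (0 : ℝ) < ((m₀ + φ n : ℕ) : ℝ) := by exact_mod_cast hmp
        have h6 : ((m₀ + φ n - 1 : ℕ) : ℝ) = ((m₀ + φ n : ℕ) : ℝ) - 1 := by
          rw [Nat.cast_sub (by omega)]; simp
        simp only
        rw [h6]
        rw [show (((m₀ + φ n : ℕ) : ℝ) - 1) / ((m₀ + φ n : ℕ) : ℝ) - 1 =
          -(1 / ((m₀ + φ n : ℕ) : ℝ)) by field_simp; ring, abs_neg, abs_of_pos (by positivity)])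
    have h2 : Filter.Tendsto (fun n => XA2_z a (w (φ n)) ⟨0, hmpos (φ n)⟩ - ((0 : J → ℝ), a))
        Filter.atTop (𝓝 (zs - ((0 : J → ℝ), a))) := hlim.sub_const _
    have h3 : Filter.Tendsto (fun n => XA2_z a (w (φ n)) ⟨0, hmpos (φ n)⟩ - ((0 : J → ℝ), a) -
        XA2_z a (w (φ n)) ⟨m₀ + φ n - 1, by have := hmpos (φ n); omega⟩)
        Filter.atTop (𝓝 0) := by
      rw [tendsto_zero_iff_norm_tendsto_zero]
      have h4 := hinv.const_mul (M + ‖qlin a‖ + A)
      simp only [mul_zero] at h4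
      refine squeeze_zero (fun n => norm_nonneg _) (fun n => ?_) h4
      have hmR : (0 : ℝ) < ((m₀ + φ n : ℕ) : ℝ) := by exact_mod_cast hmpos (φ n)
      rw [XA3_close (hmpos (φ n)) (hD (φ n))]
      have hξ : ∀ i, ‖ξ (φ n) i‖ ≤ M + ‖qlin a‖ := by
        intro i
        rw [(hD (φ n)).slope i]
        exact (norm_add_le _ _).trans (add_le_add (hMb _ (hZS (φ n) i)) le_rfl)
      refine (norm_sub_le _ _).trans ?_
      rw [norm_smul, norm_smul, Real.norm_eq_abs, Real.norm_eq_abs, abs_of_pos (by positivity),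
        abs_of_pos (by positivity)]
      have h5 : ‖sg (ξ (φ n) ⟨0, hmpos (φ n)⟩ + ξ (φ n) ⟨m₀ + φ n - 1, by
          have := hmpos (φ n); omega⟩)‖ ≤ 2 * (M + ‖qlin a‖) := by
        refine (norm_sg_le _).trans ((norm_add_le _ _).trans ?_)
        linarith [hξ ⟨0, hmpos (φ n)⟩, hξ ⟨m₀ + φ n - 1, by have := hmpos (φ n); omega⟩]
      have h6 := mul_le_mul_of_nonneg_left h5
        (by positivity : (0 : ℝ) ≤ 1 / (2 * ((m₀ + φ n : ℕ) : ℝ)))
      have e : 1 / (2 * ((m₀ + φ n : ℕ) : ℝ)) * (2 * (M + ‖qlin a‖)) =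
          (M + ‖qlin a‖) * (1 / ((m₀ + φ n : ℕ) : ℝ)) := by field_simp
      rw [e] at h6
      have e2 : 1 / ((m₀ + φ n : ℕ) : ℝ) * ‖((0 : J → ℝ), a)‖ =
          A * (1 / ((m₀ + φ n : ℕ) : ℝ)) := by rw [mul_comm]
      rw [e2, add_mul]
      linarith
    have h4 := h2.sub h3
    simp only [sub_sub_cancel, sub_zero] at h4
    rw [hz0]
    exact tendsto_nhds_unique h1 h4

end

end AdSBend
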