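import Pool.Agent.helper69.AD.GS6
import Pool.Agent.helper73.AD.Basic

set_option autoImplicit false

open scoped Topology
open Pool.Agent.helper73.AD

namespace AdSBend

noncomputable section

variable {J : Type} [Fintype J] [DecidableEq J]

omit [DecidableEq J] in
theorem XA_qlin (a : J → ℝ) (z : PS J) : qlin a z = ∑ j, a j * z.1 j := by
  unfold qlin
  simp [ContinuousLinearMap.sum_apply]

/-- the proper Hamiltonian -/
def XA_G (H : PS J → ℝ) (a : J → ℝ) (z : PS J) : ℝ := H z + qlin a z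

/-- its derivative -/
def XA_D (H : PS J → ℝ) (a : J → ℝ) (z : PS J) : PS J →L[ℝ] ℝ := fderiv ℝ H z + qlin a

theorem XA_hasD {H : PS J → ℝ} {a : J → ℝ} (h : CHam H a) {z : PS J} (hz : z ∈ Cone J) :
    HasFDerivAt (XA_G H a) (XA_D H a z) z := by
  have h1 : DifferentiableAt ℝ H z :=
    (h.smooth.contDiffAt (Cone_mem_nhds hz)).differentiableAt (by norm_num)
  exact h1.hasFDerivAt.add (qlin a).hasFDerivAt

theorem XA_cont {H : PS J → ℝ} {a : J → ℝ} (h : CHam H a) : ContinuousOn (XA_G H a) (Cone J) :=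
  fun _ hz => (XA_hasD h hz).continuousAt.continuousWithinAt

theorem XA_Dcont {H : PS J → ℝ} {a : J → ℝ} (h : CHam H a) : ContinuousOn (XA_D H a) (Cone J) := by
  have h1 : ContinuousOn (fderiv ℝ H) (Cone J) :=
    h.smooth.continuousOn_fderiv_of_isOpen isOpen_Cone (by norm_num)
  exact h1.add continuousOn_const

theorem XA_convG {H : PS J → ℝ} {a : J → ℝ} (h : CHam H a) : ConvexOn ℝ (Cone J) (XA_G H a) := by
  refine ⟨convex_Cone, fun x hx y hy s t hs ht hst => ?_⟩
  have h1 := h.convex.2 hx hy hs ht hst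
  unfold XA_G
  rw [map_add, map_smul, map_smul]
  simp only [smul_eq_mul] at h1 ⊢
  nlinarith

theorem XA_tangent {H : PS J → ℝ} {a : J → ℝ} (h : CHam H a) {z w : PS J} (hz : z ∈ Cone J)
    (hw : w ∈ Cone J) : XA_G H a z + XA_D H a z (w - z) ≤ XA_G H a w := by
  have h1 : HasDerivAt (fun t : ℝ => XA_G H a (z + t • (w - z))) (XA_D H a z (w - z)) 0 := by
    have h2 : HasFDerivAt (XA_G H a) (XA_D H a z) (z + (0 : ℝ) • (w - z)) := by
      rw [zero_smul, add_zero]; exact XA_hasD h hz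
    have h3 : HasDerivAt (fun t : ℝ => z + t • (w - z)) (w - z) 0 := by
      have := ((hasDerivAt_id (0 : ℝ)).smul_const (w - z)).const_add z
      simpa using this
    exact h2.comp_hasDerivAt (0 : ℝ) h3
  have h2 := h1.hasDerivWithinAt (s := Set.Ioi 0)
  rw [hasDerivWithinAt_iff_tendsto_slope'] at h2
  · have h3 : ∀ᶠ t in 𝓝[>] (0 : ℝ), slope (fun t : ℝ => XA_G H a (z + t • (w - z))) 0 t ≤
        XA_G H a w - XA_G H a z := by
      have h4 : Set.Ioc (0 : ℝ) 1 ∈ 𝓝[>] (0 : ℝ) := Ioc_mem_nhdsGT one_pos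
      filter_upwards [h4] with t ht
      have h5 := (XA_convG h).2 hz hw (sub_nonneg.2 ht.2) ht.1.le (by ring)
      rw [slope_def_field]
      simp only [zero_smul, add_zero, sub_zero, smul_eq_mul] at h5 ⊢
      rw [div_le_iff₀ ht.1]
      have e : z + t • (w - z) = (1 - t) • z + t • w := by
        rw [smul_sub, sub_smul, one_smul]; abel
      rw [e]
      linarith
    have := le_of_tendsto h2 h3
    linarith
  · simp

theorem XA_slope {H : PS J → ℝ} {a : J → ℝ} (h : CHam H a) : ∃ C : ℝ, 0 ≤ C ∧ ∀ z ∈ Cone J, ∀ j,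
    |XA_D H a z (0, Pi.single j 1)| ≤ C ∧ XA_D H a z (Pi.single j 1, 0) ≤ C := by
  obtain ⟨C, hC⟩ := h.slope
  refine ⟨|C| + ∑ j, |a j|, by positivity, fun z hz j => ?_⟩
  obtain ⟨h1, h2⟩ := hC z hz j
  have h3 : 0 ≤ ∑ j, |a j| := Finset.sum_nonneg fun j _ => abs_nonneg _
  have h4 : |a j| ≤ ∑ j, |a j| := Finset.single_le_sum (fun i _ => abs_nonneg (a i))
    (Finset.mem_univ j)
  have h5 := le_abs_self C
  have h6 := le_abs_self (a j)
  have e1 : qlin a ((0, Pi.single j 1) : PS J) = 0 := by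
    rw [XA_qlin]; simp
  have e2 : qlin a ((Pi.single j 1, 0) : PS J) = a j := by
    rw [XA_qlin]; simp [Pi.single_apply]
  unfold XA_D
  rw [ContinuousLinearMap.add_apply, ContinuousLinearMap.add_apply, e1, e2, add_zero]
  constructor <;> linarith

/-- the compact boxes -/
def XA_box (J : Type) (δ B : ℝ) : Set (PS J) :=
  {z | ∀ j, δ ≤ z.1 j ∧ z.1 j ≤ B ∧ |z.2 j| ≤ B}

omit [DecidableEq J] in
theorem XA_box_compact (δ B : ℝ) : IsCompact (XA_box J δ B) := by
  have : XA_box J δ B = (Set.Icc (fun _ => δ) (fun _ => B)) ×ˢ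
      (Set.Icc (fun _ => -B) (fun _ => B)) := by
    ext z
    simp only [XA_box, Set.mem_setOf_eq, Set.mem_prod, Set.mem_Icc, Pi.le_def, abs_le]
    constructor
    · intro h
      exact ⟨⟨fun j => (h j).1, fun j => (h j).2.1⟩, fun j => (h j).2.2.1, fun j => (h j).2.2.2⟩
    · intro h j
      exact ⟨h.1.1 j, h.1.2 j, h.2.1 j, h.2.2 j⟩
  rw [this]
  exact isCompact_Icc.prod isCompact_Icc

omit [Fintype J] [DecidableEq J] in
theorem XA_box_sub {δ B : ℝ} (hδ : 0 < δ) : XA_box J δ B ⊆ Cone J := fun _ hz j =>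
  hδ.trans_le (hz j).1

omit [Fintype J] [DecidableEq J] in
theorem XA_box_convex (δ B : ℝ) : Convex ℝ (XA_box J δ B) := by
  intro x hx y hy s t hs ht hst j
  obtain ⟨h1, h2, h3⟩ := hx j
  obtain ⟨h4, h5, h6⟩ := hy j
  rw [abs_le] at h3 h6
  simp only [Prod.fst_add, Prod.snd_add, Prod.smul_fst, Prod.smul_snd, Pi.add_apply,
    Pi.smul_apply, smul_eq_mul, abs_le]
  refine ⟨?_, ?_, ?_, ?_⟩
  · have : δ = s * δ + t * δ := by rw [← add_mul, hst, one_mul]
    rw [this]; gcongr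
  · have : B = s * B + t * B := by rw [← add_mul, hst, one_mul]
    rw [this]; gcongr
  · have : -B = s * (-B) + t * (-B) := by rw [← add_mul, hst, one_mul]
    rw [this]
    have h7 := mul_le_mul_of_nonneg_left h3.1 hs
    have h8 := mul_le_mul_of_nonneg_left h6.1 ht
    linarith
  · have : B = s * B + t * B := by rw [← add_mul, hst, one_mul]
    rw [this]
    have h7 := mul_le_mul_of_nonneg_left h3.2 hs
    have h8 := mul_le_mul_of_nonneg_left h6.2 ht
    linarith

theorem XA_proper {H : PS J → ℝ} {a : J → ℝ} (h : CHam H a) (R : ℝ) : ∃ δ B : ℝ, 0 < δ ∧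
    ∀ z ∈ Cone J, XA_G H a z ≤ R → z ∈ XA_box J δ B := by
  obtain ⟨δ, B, h1, h2⟩ := h.proper R
  exact ⟨δ, B, h1, fun z hz hR j => h2 z hz hR j⟩

theorem XA_lower {H : PS J → ℝ} {a : J → ℝ} (h : CHam H a) : ∃ κ : ℝ, κ ≤ 0 ∧
    ∀ z ∈ Cone J, κ ≤ XA_G H a z := by
  obtain ⟨δ, B, hδ, h1⟩ := XA_proper h 0
  obtain ⟨κ, hκ⟩ := (XA_box_compact (J := J) δ B).bddBelow_image
    ((XA_cont h).mono (XA_box_sub hδ))
  refine ⟨min κ 0, min_le_right _ _, fun z hz => ?_⟩
  by_cases h2 : XA_G H a z ≤ 0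
  · exact (min_le_left _ _).trans (hκ (Set.mem_image_of_mem _ (h1 z hz h2)))
  · exact (min_le_right _ _).trans (not_le.1 h2).le

/-- bound of a covector by its values on the standard basis -/
theorem XA_norm_le (l : PS J →L[ℝ] ℝ) (C : ℝ) (hC : 0 ≤ C)
    (h : ∀ j, |l (Pi.single j 1, 0)| ≤ C ∧ |l (0, Pi.single j 1)| ≤ C) :
    ‖l‖ ≤ 2 * Fintype.card J * C := by
  apply l.opNorm_le_bound (by positivity)
  intro y
  conv_lhs => rw [ps_eq_sum y]
  rw [map_add, map_sum, map_sum, Real.norm_eq_abs]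
  refine (abs_add_le _ _).trans ?_
  have h1 : |∑ j, l (y.1 j • ((Pi.single j 1, 0) : PS J))| ≤ Fintype.card J * (C * ‖y‖) := by
    refine (Finset.abs_sum_le_sum_abs _ _).trans ?_
    rw [← nsmul_eq_mul, ← Finset.card_univ, ← Finset.sum_const]
    apply Finset.sum_le_sum
    intro j _
    rw [map_smul, smul_eq_mul, abs_mul, mul_comm]
    exact mul_le_mul (h j).1 (abs_fst_le y j) (abs_nonneg _) hC
  have h2 : |∑ j, l (y.2 j • ((0, Pi.single j 1) : PS J))| ≤ Fintype.card J * (C * ‖y‖) := by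
    refine (Finset.abs_sum_le_sum_abs _ _).trans ?_
    rw [← nsmul_eq_mul, ← Finset.card_univ, ← Finset.sum_const]
    apply Finset.sum_le_sum
    intro j _
    rw [map_smul, smul_eq_mul, abs_mul, mul_comm]
    exact mul_le_mul (h j).2 (abs_snd_le y j) (abs_nonneg _) hC
  linarith

end

end AdSBend
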